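import Mathlib

/-!
# Sizes of the image of `g(x)/x` for linear maps of a finite field with a large eigenspace
-/

set_option autoImplicit false
set_option linter.unusedSectionVars false

namespace Pool.Agent.H88.QP

open Module Finset

variable {K L : Type*} [Field K] [Field L] [Algebra K L]

/-- the eigenspace `{x : g x = c x}`, `c` in the big field -/
def E (g : L →ₗ[K] L) (c : L) : Submodule K L := LinearMap.ker (g - LinearMap.mulLeft K c)

theorem mem_E (g : L →ₗ[K] L) (c x : L) : x ∈ E g c ↔ g x = c * x := by
  simp [E, LinearMap.mem_ker, sub_eq_zero]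

theorem E_zero (g : L →ₗ[K] L) : E g 0 = LinearMap.ker g := by
  ext x; rw [mem_E, LinearMap.mem_ker, zero_mul]

/-- the set of the values `g(x)/x`, `x ≠ 0` -/
def Im (g : L → L) : Set L := {c | ∃ x : L, x ≠ 0 ∧ g x / x = c}

theorem mem_Im (g : L → L) (c : L) : c ∈ Im g ↔ ∃ x : L, x ≠ 0 ∧ g x = c * x := by
  constructor
  · rintro ⟨x, hx, rfl⟩
    exact ⟨x, hx, by field_simp⟩
  · rintro ⟨x, hx, h⟩
    exact ⟨x, hx, by rw [h]; field_simp⟩

theorem disjoint_E (g : L →ₗ[K] L) {c : L} (hc : c ≠ 0) : Disjoint (E g c) (LinearMap.ker g) := by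
  rw [Submodule.disjoint_def]
  intro x hx hx'
  rw [mem_E] at hx
  rw [LinearMap.mem_ker] at hx'
  rw [hx'] at hx
  rcases mul_eq_zero.mp hx.symm with h | h
  · exact absurd h hc
  · exact h

variable [Finite L] [Finite K]

omit [Finite K] in
theorem fd : FiniteDimensional K L := Module.Finite.of_finite

omit [Finite K] in
theorem card_sub (W : Submodule K L) : Nat.card W = Nat.card K ^ finrank K W := by
  have := fd (K := K) (L := L)
  exact Module.natCard_eq_pow_finrank

/-- the counting identity -/
theorem count (g : L →ₗ[K] L) (T : Set L)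
    (h0 : (0 : L) ∈ Im g)
    (hT : ∀ c, c ∈ T ↔ c ≠ 0 ∧ finrank K (E g c) = 2)
    (hE : ∀ c ∈ Im g, c ≠ 0 → finrank K (E g c) = 1 ∨ finrank K (E g c) = 2) :
    ((Nat.card K : ℤ) ^ finrank K (LinearMap.ker g) - 1)
      + ((Nat.card K : ℤ) - 1) * (((Im g).ncard - 1) + T.ncard * Nat.card K)
      = (Nat.card K : ℤ) ^ finrank K L - 1 := by
  classical
  have hfd := fd (K := K) (L := L)
  have : Fintype L := Fintype.ofFinite L
  set q : ℤ := (Nat.card K : ℤ) with hq
  let I : Finset L := Finset.univ.filter (fun c => c ∈ Im g)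
  have hIc : (Im g).ncard = I.card := by
    rw [← Set.ncard_coe_finset]
    congr 1
    ext c; simp [I]
  have hTI : ∀ c ∈ T, c ∈ Im g := by
    intro c hc
    obtain ⟨hc0, h2⟩ := (hT c).mp hc
    have : 0 < finrank K (E g c) := by omega
    have := finrank_pos_iff_exists_ne_zero.mp this
    obtain ⟨x, hx⟩ := this
    rw [mem_Im]
    refine ⟨x, fun h => hx (Subtype.ext h), (mem_E g c x).mp x.2⟩
  let S : Finset L := Finset.univ.filter (fun x => x ≠ 0)
  have hS : (S.card : ℤ) = q ^ finrank K L - 1 := by
    have h1 : S.card = Fintype.card L - 1 := by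
      have : S = Finset.univ.erase 0 := by
        ext x; simp [S]
      rw [this, Finset.card_erase_of_mem (Finset.mem_univ _), Finset.card_univ]
    have h2 : Fintype.card L = Nat.card K ^ finrank K L := by
      rw [Fintype.card_eq_nat_card]
      exact Module.natCard_eq_pow_finrank
    have h3 : 1 ≤ Fintype.card L := Fintype.card_pos
    rw [h1, Nat.cast_sub h3, h2]
    push_cast
    rfl
  have hfib : S.card = ∑ c ∈ I, (S.filter (fun x => g x / x = c)).card := by
    apply Finset.card_eq_sum_card_fiberwise
    intro x hx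
    simp only [S, Finset.coe_filter, Finset.mem_univ, true_and, Set.mem_ofPred_eq] at hx
    simp only [I, Finset.coe_filter, Finset.mem_univ, true_and, Set.mem_ofPred_eq]
    exact ⟨x, hx, rfl⟩
  have hcard : ∀ c, ((S.filter (fun x => g x / x = c)).card : ℤ) = q ^ finrank K (E g c) - 1 := by
    intro c
    have h1 : (S.filter (fun x => g x / x = c)) =
        (Finset.univ.filter (fun x : L => x ∈ E g c)).erase 0 := by
      ext x
      simp only [S, Finset.mem_filter, Finset.mem_univ, true_and, Finset.mem_erase, mem_E]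
      constructor
      · rintro ⟨hx, h⟩
        exact ⟨hx, by rw [← h]; field_simp⟩
      · rintro ⟨hx, h⟩
        exact ⟨hx, by rw [h]; field_simp⟩
    have h2 : (0 : L) ∈ Finset.univ.filter (fun x : L => x ∈ E g c) := by simp
    rw [h1, Finset.card_erase_of_mem h2]
    have h3 : (Finset.univ.filter (fun x : L => x ∈ E g c)).card = Nat.card K ^ finrank K (E g c) := by
      rw [← card_sub (E g c)]
      rw [Nat.card_eq_fintype_card, Fintype.card_subtype]
    have h4 : 1 ≤ (Finset.univ.filter (fun x : L => x ∈ E g c)).card :=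
      Finset.card_pos.mpr ⟨0, h2⟩
    rw [Nat.cast_sub h4, h3]
    push_cast
    rfl
  have hsum : q ^ finrank K L - 1 = ∑ c ∈ I, (q ^ finrank K (E g c) - 1) := by
    rw [← hS, hfib]
    push_cast
    exact Finset.sum_congr rfl fun c _ => hcard c
  have h0I : (0 : L) ∈ I := by simp [I, h0]
  rw [← Finset.add_sum_erase _ _ h0I, E_zero] at hsum
  have hstep : ∀ c ∈ I.erase 0, (q ^ finrank K (E g c) - 1)
      = (q - 1) + (if c ∈ T then q * (q - 1) else 0) := by
    intro c hc
    rw [Finset.mem_erase] at hc
    have hcI : c ∈ Im g := by simpa [I] using hc.2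
    rcases hE c hcI hc.1 with h | h
    · have : c ∉ T := fun hT' => by
        have := ((hT c).mp hT').2
        omega
      rw [h, if_neg this]; ring
    · have : c ∈ T := (hT c).mpr ⟨hc.1, h⟩
      rw [h, if_pos this]; ring
  rw [Finset.sum_congr rfl hstep, Finset.sum_add_distrib, Finset.sum_const,
    Finset.card_erase_of_mem h0I, ← Finset.sum_filter, Finset.sum_const] at hsum
  have hTc : T.ncard = ((I.erase 0).filter (fun c => c ∈ T)).card := by
    rw [← Set.ncard_coe_finset]
    congr 1
    ext c
    simp only [Finset.coe_filter, Finset.mem_erase, Set.mem_ofPred_eq]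
    constructor
    · intro hc
      exact ⟨⟨((hT c).mp hc).1, by simp [I, hTI c hc]⟩, hc⟩
    · exact fun h => h.2
  have hI1 : 1 ≤ I.card := Finset.card_pos.mpr ⟨0, h0I⟩
  rw [← hTc] at hsum
  rw [hsum, hIc]
  simp only [nsmul_eq_mul]
  rw [Nat.cast_sub hI1]
  push_cast
  ring


/-- the map `d ↦ (y ↦ g(d y))` on the range of `g` -/
noncomputable def Phi (g : L →ₗ[K] L) :
    L →ₗ[K] (LinearMap.range g →ₗ[K] LinearMap.range g) where
  toFun d := g.rangeRestrict ∘ₗ LinearMap.mulLeft K d ∘ₗ (LinearMap.range g).subtype
  map_add' d e := by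
    ext y; simp [add_mul]
  map_smul' k d := by
    ext y; simp

omit [Finite L] [Finite K] in
theorem Phi_apply (g : L →ₗ[K] L) (d : L) (y : LinearMap.range g) :
    ((Phi g d y : LinearMap.range g) : L) = g (d * y) := rfl

omit [Finite L] [Finite K] in
theorem Phi_eq_id (g : L →ₗ[K] L) (d : L) :
    Phi g d = LinearMap.id ↔ ∀ y ∈ LinearMap.range g, g (d * y) = y := by
  constructor
  · intro h y hy
    have := congrArg (fun f => ((f ⟨y, hy⟩ : LinearMap.range g) : L)) h
    simpa [Phi_apply] using this
  · intro h
    ext y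
    rw [Phi_apply]
    simpa using h y y.2

omit [Finite K] in
/-- when the kernel has codimension two, the other eigenspaces have dimension at most two -/
theorem finrank_E_le (g : L →ₗ[K] L) {c : L} (hc : c ≠ 0) :
    finrank K (E g c) + finrank K (LinearMap.ker g) ≤ finrank K L := by
  have := fd (K := K) (L := L)
  exact Submodule.finrank_add_finrank_le_of_disjoint (disjoint_E g hc)

omit [Finite K] in
theorem one_le_finrank_E (g : L →ₗ[K] L) {c : L} (hc : c ∈ Im g) : 1 ≤ finrank K (E g c) := by
  have := fd (K := K) (L := L)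
  obtain ⟨x, hx, h⟩ := (mem_Im g c).mp hc
  have : Nontrivial (E g c) := ⟨⟨⟨x, (mem_E g c x).mpr h⟩, 0, fun h' => hx (congrArg Subtype.val h')⟩⟩
  exact finrank_pos

/-- the eigenvalues with eigenspace of dimension two are the inverses of the `d` with
`Phi g d = id` -/
theorem two_iff (g : L →ₗ[K] L) (hr : finrank K (LinearMap.range g) = 2)
    (hk : finrank K (LinearMap.ker g) + 2 = finrank K L) {c : L} (hc : c ≠ 0) :
    finrank K (E g c) = 2 ↔ Phi g c⁻¹ = LinearMap.id := by
  have := fd (K := K) (L := L)
  have hle := finrank_E_le g hc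
  constructor
  · intro h
    rw [Phi_eq_id]
    -- multiplication by c maps E injectively into the range
    let m : E g c →ₗ[K] LinearMap.range g :=
      { toFun := fun x => ⟨c * x, ⟨x, (mem_E g c x).mp x.2⟩⟩
        map_add' := fun x y => Subtype.ext (by simp [mul_add])
        map_smul' := fun k x => Subtype.ext (by simp) }
    have hinj : Function.Injective m := by
      intro x y hxy
      have h1 := congrArg Subtype.val hxy
      exact Subtype.ext (mul_left_cancel₀ hc h1)
    have hsurj : Function.Surjective m :=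
      (LinearMap.injective_iff_surjective_of_finrank_eq_finrank (h.trans hr.symm)).mp hinj
    intro y hy
    obtain ⟨x, hx⟩ := hsurj ⟨y, hy⟩
    have h1 : c * (x : L) = y := congrArg Subtype.val hx
    rw [← h1, inv_mul_cancel_left₀ hc, (mem_E g c x).mp x.2]
  · intro h
    rw [Phi_eq_id] at h
    let m : LinearMap.range g →ₗ[K] E g c :=
      { toFun := fun y => ⟨c⁻¹ * y, by
          rw [mem_E, h y y.2, mul_inv_cancel_left₀ hc]⟩
        map_add' := fun x y => Subtype.ext (by simp [mul_add])
        map_smul' := fun k x => Subtype.ext (by simp) }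
    have hinj : Function.Injective m := by
      intro x y hxy
      have h1 := congrArg Subtype.val hxy
      exact Subtype.ext (mul_left_cancel₀ (inv_ne_zero hc) h1)
    have := LinearMap.finrank_le_finrank_of_injective hinj
    omega

/-- the size formula -/
theorem size (g : L →ₗ[K] L) (hr : finrank K (LinearMap.range g) = 2)
    (hk : finrank K (LinearMap.ker g) + 2 = finrank K L) (hn : 3 ≤ finrank K L) :
    (Im g).ncard + {d : L | Phi g d = LinearMap.id}.ncard * Nat.card K
      = 1 + Nat.card K ^ (finrank K L - 1) + Nat.card K ^ (finrank K L - 2) := by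
  have hfd := fd (K := K) (L := L)
  obtain ⟨k, hk'⟩ : ∃ k, finrank K L = k + 3 := ⟨finrank K L - 3, by omega⟩
  have hkk : finrank K (LinearMap.ker g) = k + 1 := by omega
  have h0 : (0 : L) ∈ Im g := by
    have : Nontrivial (LinearMap.ker g) := by
      apply Module.nontrivial_of_finrank_pos (R := K); omega
    obtain ⟨x, hx⟩ := exists_ne (0 : LinearMap.ker g)
    rw [mem_Im]
    refine ⟨x, fun h => hx (Subtype.ext h), ?_⟩
    rw [zero_mul]; exact x.2
  have hD0 : ∀ d : L, Phi g d = LinearMap.id → d ≠ 0 := by
    rintro d h rfl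
    rw [Phi_eq_id] at h
    have : Nontrivial (LinearMap.range g) := by
      apply Module.nontrivial_of_finrank_pos (R := K); omega
    obtain ⟨y, hy⟩ := exists_ne (0 : LinearMap.range g)
    have := h y y.2
    rw [zero_mul, map_zero] at this
    exact hy (Subtype.ext this.symm)
  set T : Set L := {c | c ≠ 0 ∧ finrank K (E g c) = 2} with hT
  have hTD : T = (fun d => d⁻¹) '' {d : L | Phi g d = LinearMap.id} := by
    ext c
    constructor
    · rintro ⟨hc, h2⟩
      exact ⟨c⁻¹, (two_iff g hr hk hc).mp h2, inv_inv c⟩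
    · rintro ⟨d, hd, rfl⟩
      have hd0 := hD0 d hd
      refine ⟨inv_ne_zero hd0, (two_iff g hr hk (inv_ne_zero hd0)).mpr ?_⟩
      rw [inv_inv]; exact hd
  have hTc : T.ncard = {d : L | Phi g d = LinearMap.id}.ncard := by
    rw [hTD]
    exact Set.ncard_image_of_injective _ inv_injective
  have hcount := count g T h0 (fun c => Iff.rfl) (by
    intro c hc hc0
    have h1 := one_le_finrank_E g hc
    have h2 := finrank_E_le g hc0
    omega)
  rw [hkk, hk', hTc] at hcount
  have hq : (1 : ℤ) < Nat.card K := by exact_mod_cast Finite.one_lt_card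
  have hq0 : (Nat.card K : ℤ) - 1 ≠ 0 := by omega
  have hgoal : ((Im g).ncard : ℤ) + {d : L | Phi g d = LinearMap.id}.ncard * Nat.card K
      = 1 + (Nat.card K : ℤ) ^ (k + 2) + (Nat.card K : ℤ) ^ (k + 1) := by
    apply mul_left_cancel₀ hq0
    have e1 : (Nat.card K : ℤ) ^ (k + 3) = (Nat.card K : ℤ) ^ (k + 1) * (Nat.card K) ^ 2 := by ring
    have e2 : (Nat.card K : ℤ) ^ (k + 2) = (Nat.card K : ℤ) ^ (k + 1) * (Nat.card K) := by ring
    rw [e1] at hcount
    rw [e2]
    linear_combination hcount
  rw [hk']
  have e3 : k + 3 - 1 = k + 2 := by omega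
  have e4 : k + 3 - 2 = k + 1 := by omega
  rw [e3, e4]
  exact_mod_cast hgoal

/-- rank one maps -/
theorem size_one (g : L →ₗ[K] L) (hk : finrank K (LinearMap.ker g) + 1 = finrank K L)
    (hn : 2 ≤ finrank K L) :
    (Im g).ncard = Nat.card K ^ (finrank K L - 1) + 1 := by
  have hfd := fd (K := K) (L := L)
  obtain ⟨k, hk'⟩ : ∃ k, finrank K L = k + 2 := ⟨finrank K L - 2, by omega⟩
  have hkk : finrank K (LinearMap.ker g) = k + 1 := by omega
  have h0 : (0 : L) ∈ Im g := by
    have : Nontrivial (LinearMap.ker g) := by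
      apply Module.nontrivial_of_finrank_pos (R := K); omega
    obtain ⟨x, hx⟩ := exists_ne (0 : LinearMap.ker g)
    rw [mem_Im]
    refine ⟨x, fun h => hx (Subtype.ext h), ?_⟩
    rw [zero_mul]; exact x.2
  have hcount := count g ∅ h0 (fun c => by
      constructor
      · intro h; exact absurd h (Set.notMem_empty c)
      · rintro ⟨hc, h2⟩
        have := finrank_E_le g hc
        omega) (by
    intro c hc hc0
    have h1 := one_le_finrank_E g hc
    have h2 := finrank_E_le g hc0
    omega)
  rw [hkk, hk', Set.ncard_empty] at hcount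
  have hq : (1 : ℤ) < Nat.card K := by exact_mod_cast Finite.one_lt_card
  have hq0 : (Nat.card K : ℤ) - 1 ≠ 0 := by omega
  have hgoal : ((Im g).ncard : ℤ) = (Nat.card K : ℤ) ^ (k + 1) + 1 := by
    apply mul_left_cancel₀ hq0
    have e1 : (Nat.card K : ℤ) ^ (k + 2) = (Nat.card K : ℤ) ^ (k + 1) * (Nat.card K) := by ring
    rw [e1] at hcount
    push_cast at hcount
    linear_combination hcount
  rw [hk']
  have e3 : k + 2 - 1 = k + 1 := by omega
  rw [e3]
  exact_mod_cast hgoal

/-- the number of `d` with `Phi g d = id` is zero or the size of the kernel of `Phi g` -/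
theorem card_D (g : L →ₗ[K] L) :
    {d : L | Phi g d = LinearMap.id}.ncard = 0 ∨
    {d : L | Phi g d = LinearMap.id}.ncard = Nat.card K ^ finrank K (LinearMap.ker (Phi g)) := by
  rcases Set.eq_empty_or_nonempty {d : L | Phi g d = LinearMap.id} with h | ⟨d0, hd0⟩
  · left; rw [h, Set.ncard_empty]
  · right
    have h1 : {d : L | Phi g d = LinearMap.id} = (fun x => x + d0) '' (LinearMap.ker (Phi g) : Set L) := by
      ext d
      constructor
      · intro hd
        refine ⟨d - d0, ?_, by simp⟩
        rw [SetLike.mem_coe, LinearMap.mem_ker, map_sub]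
        have : Phi g d = LinearMap.id := hd
        have h' : Phi g d0 = LinearMap.id := hd0
        rw [this, h', sub_self]
      · rintro ⟨x, hx, rfl⟩
        rw [SetLike.mem_coe, LinearMap.mem_ker] at hx
        have h' : Phi g d0 = LinearMap.id := hd0
        show Phi g (x + d0) = LinearMap.id
        rw [map_add, hx, h', zero_add]
    rw [h1, Set.ncard_image_of_injective _ (add_left_injective d0), ← card_sub]
    exact (Nat.card_coe_set_eq _).symm

theorem ker_Phi_lower (g : L →ₗ[K] L) (hr : finrank K (LinearMap.range g) = 2) :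
    finrank K L ≤ finrank K (LinearMap.ker (Phi g)) + 4 ∧
    (finrank K L = finrank K (LinearMap.ker (Phi g)) + 4 →
      {d : L | Phi g d = LinearMap.id}.Nonempty) := by
  have hfd := fd (K := K) (L := L)
  let b := Module.finBasisOfFinrankEq K (LinearMap.range g) hr
  let P : L →ₗ[K] (LinearMap.range g × LinearMap.range g) :=
    (g.rangeRestrict ∘ₗ LinearMap.mulRight K (b 0 : L)).prod
      (g.rangeRestrict ∘ₗ LinearMap.mulRight K (b 1 : L))
  have hP : ∀ d, P d = (Phi g d (b 0), Phi g d (b 1)) := fun d => rfl
  have hker : LinearMap.ker P = LinearMap.ker (Phi g) := by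
    ext d
    rw [LinearMap.mem_ker, LinearMap.mem_ker, hP]
    constructor
    · intro h
      rw [Prod.mk_eq_zero] at h
      apply b.ext
      intro i
      fin_cases i
      · exact h.1
      · exact h.2
    · intro h
      rw [h]; rfl
  have h1 := LinearMap.finrank_range_add_finrank_ker P
  have h2 : finrank K (LinearMap.range g × LinearMap.range g) = 4 := by
    rw [Module.finrank_prod, hr]
  have h3 : finrank K (LinearMap.range P) ≤ 4 := by
    rw [← h2]; exact Submodule.finrank_le _
  rw [hker] at h1
  refine ⟨by omega, fun h => ?_⟩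
  have h4 : LinearMap.range P = ⊤ := by
    apply Submodule.eq_top_of_finrank_eq
    omega
  have : (b 0, b 1) ∈ LinearMap.range P := by
    rw [h4]; trivial
  obtain ⟨d, hd⟩ := this
  refine ⟨d, ?_⟩
  show Phi g d = LinearMap.id
  rw [hP, Prod.mk.injEq] at hd
  apply b.ext
  intro i
  fin_cases i
  · exact hd.1
  · exact hd.2

/-- the stabiliser of a subspace is an intermediate field -/
def stab (W : Submodule K L) : IntermediateField K L where
  carrier := {c | ∀ w ∈ W, c * w ∈ W}
  mul_mem' := by
    intro a b ha hb w hw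
    rw [mul_assoc]; exact ha _ (hb _ hw)
  add_mem' := by
    intro a b ha hb w hw
    rw [add_mul]; exact W.add_mem (ha _ hw) (hb _ hw)
  algebraMap_mem' := by
    intro k w hw
    rw [← Algebra.smul_def]; exact W.smul_mem k hw
  inv_mem' := by
    intro c hc
    by_cases h0 : c = 0
    · rw [h0, inv_zero]; intro w _; rw [zero_mul]; exact W.zero_mem
    · have hfin := Fintype.ofFinite L
      have h1 : c ^ (Fintype.card L - 1) = 1 := FiniteField.pow_card_sub_one_eq_one c h0
      have h2 : 1 < Fintype.card L := Fintype.one_lt_card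
      have h3 : c⁻¹ = c ^ (Fintype.card L - 2) := by
        rw [inv_eq_iff_eq_inv]
        apply eq_inv_of_mul_eq_one_left
        rw [← pow_succ']
        have : Fintype.card L - 2 + 1 = Fintype.card L - 1 := by omega
        rw [this, h1]
      rw [h3]
      have h4 : ∀ j : ℕ, ∀ w ∈ W, c ^ j * w ∈ W := by
        intro j
        induction j with
        | zero => intro w hw; simpa using hw
        | succ j ih =>
          intro w hw
          rw [pow_succ, mul_assoc]
          exact ih _ (hc _ hw)
      exact h4 _

omit [Finite K] in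
theorem even_of_stab (W : Submodule K L) (hW : finrank K W + 2 = finrank K L) {c : L}
    (hc : ∀ w ∈ W, c * w ∈ W) (hcK : c ∉ Set.range (algebraMap K L)) : Even (finrank K L) := by
  have hfd := fd (K := K) (L := L)
  let F := stab W
  have hcF : c ∈ F := hc
  let W' : Submodule F L :=
    { carrier := W
      add_mem' := fun ha hb => W.add_mem ha hb
      zero_mem' := W.zero_mem
      smul_mem' := fun a w hw => a.2 w hw }
  have h1 : finrank K F * finrank F L = finrank K L := Module.finrank_mul_finrank K F L
  have h2 : finrank K F * finrank F W' = finrank K W' := Module.finrank_mul_finrank K F W'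
  have h3 : finrank K W' = finrank K W := rfl
  have h4 : finrank K F ∣ 2 := by
    have ha : finrank K F ∣ finrank K W := ⟨_, by rw [← h3, h2]⟩
    have hb : finrank K F ∣ finrank K L := ⟨_, h1.symm⟩
    rw [← hW] at hb
    exact (Nat.dvd_add_right ha).mp hb
  have h5 : finrank K F ≠ 1 := by
    intro h
    have : F = ⊥ := IntermediateField.finrank_eq_one_iff.mp h
    rw [this] at hcF
    exact hcK (IntermediateField.mem_bot.mp hcF)
  have h6 : finrank K F = 2 := by
    rcases (Nat.dvd_prime Nat.prime_two).mp h4 with h | h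
    · exact absurd h h5
    · exact h
  rw [← h1, h6]
  exact even_two_mul _

theorem ker_Phi_upper (g : L →ₗ[K] L) (hr : finrank K (LinearMap.range g) = 2)
    (hk : finrank K (LinearMap.ker g) + 2 = finrank K L) :
    finrank K (LinearMap.ker (Phi g)) + 2 ≤ finrank K L ∧
    (finrank K (LinearMap.ker (Phi g)) + 2 = finrank K L → Even (finrank K L)) := by
  have hfd := fd (K := K) (L := L)
  -- `u` times the kernel of `Phi g` lies in the kernel of `g`
  have hmap : ∀ u ∈ LinearMap.range g, ∀ k ∈ LinearMap.ker (Phi g), k * u ∈ LinearMap.ker g := by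
    intro u hu k hk'
    rw [LinearMap.mem_ker] at hk' ⊢
    have := congrArg (fun f => ((f ⟨u, hu⟩ : LinearMap.range g) : L)) hk'
    simpa [Phi_apply] using this
  have hle : ∀ u ∈ LinearMap.range g, u ≠ 0 →
      ((LinearMap.ker (Phi g)).map (LinearMap.mulRight K u)) ≤ LinearMap.ker g ∧
      finrank K ((LinearMap.ker (Phi g)).map (LinearMap.mulRight K u))
        = finrank K (LinearMap.ker (Phi g)) := by
    intro u hu hu0
    constructor
    · rintro _ ⟨k, hk', rfl⟩
      exact hmap u hu k hk'
    · have hinj : Function.Injective (LinearMap.mulRight K u) := by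
        intro x y hxy
        exact mul_right_cancel₀ hu0 hxy
      exact (Submodule.equivMapOfInjective (LinearMap.mulRight K u) hinj
        (LinearMap.ker (Phi g))).finrank_eq.symm
  have hnt : Nontrivial (LinearMap.range g) := by
    apply Module.nontrivial_of_finrank_pos (R := K); omega
  obtain ⟨u0, hu0⟩ := exists_ne (0 : LinearMap.range g)
  have hu : (u0 : L) ≠ 0 := fun h => hu0 (Subtype.ext h)
  obtain ⟨hl, hf⟩ := hle u0 u0.2 hu
  have hmono := Submodule.finrank_mono hl
  refine ⟨by omega, fun heq => ?_⟩
  have hmapeq : (LinearMap.ker (Phi g)).map (LinearMap.mulRight K (u0 : L)) = LinearMap.ker g :=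
    Submodule.eq_of_le_of_finrank_eq hl (by omega)
  obtain ⟨v, hv, hvK⟩ : ∃ v ∈ LinearMap.range g, v / (u0 : L) ∉ Set.range (algebraMap K L) := by
    by_contra hcon
    push Not at hcon
    have hsub : LinearMap.range g ≤ Submodule.span K {(u0 : L)} := by
      intro v hv
      obtain ⟨k, hk'⟩ := hcon v hv
      rw [Submodule.mem_span_singleton]
      refine ⟨k, ?_⟩
      rw [Algebra.smul_def, hk']
      field_simp
    have h1 := Submodule.finrank_mono hsub
    rw [finrank_span_singleton hu] at h1
    omega
  refine even_of_stab (LinearMap.ker g) hk (c := v / u0) ?_ hvK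
  intro w hw
  rw [← hmapeq] at hw
  obtain ⟨k, hk', rfl⟩ := hw
  have h2 : v / (u0 : L) * (LinearMap.mulRight K (u0 : L)) k = k * v := by
    rw [LinearMap.mulRight_apply]
    field_simp
  rw [h2]
  exact hmap v hv k hk'

/-- all sizes for maps with kernel of codimension two -/
theorem sizes (g : L →ₗ[K] L)
    (hk : finrank K (LinearMap.ker g) + 2 = finrank K L) (hn : 4 ≤ finrank K L) :
    (Im g).ncard = Nat.card K ^ (finrank K L - 1) + 1 ∨
    (Im g).ncard = Nat.card K ^ (finrank K L - 1) + Nat.card K ^ (finrank K L - 2) + 1 ∨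
    (Im g).ncard + Nat.card K ^ (finrank K L - 3)
      = Nat.card K ^ (finrank K L - 1) + Nat.card K ^ (finrank K L - 2) + 1 ∨
    (Even (finrank K L) ∧ (Im g).ncard = Nat.card K ^ (finrank K L - 2) + 1) := by
  have hfd := fd (K := K) (L := L)
  have hr : finrank K (LinearMap.range g) = 2 := by
    have := LinearMap.finrank_range_add_finrank_ker g
    omega
  have hs := size g hr hk (by omega)
  obtain ⟨hlo, hlo'⟩ := ker_Phi_lower g hr
  obtain ⟨hup, hup'⟩ := ker_Phi_upper g hr hk
  rcases card_D g with h | h
  · right; left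
    rw [h] at hs
    omega
  · rw [h, ← pow_succ] at hs
    obtain ⟨k, hk'⟩ : ∃ k, finrank K L = k + 4 := ⟨finrank K L - 4, by omega⟩
    rcases (by omega : finrank K (LinearMap.ker (Phi g)) = k ∨
      finrank K (LinearMap.ker (Phi g)) = k + 1 ∨ finrank K (LinearMap.ker (Phi g)) = k + 2) with
      h1 | h1 | h1
    · right; right; left
      rw [h1, hk'] at hs
      rw [hk']
      have e1 : k + 4 - 3 = k + 1 := by omega
      rw [e1]; omega
    · left
      rw [h1, hk'] at hs
      rw [hk']
      have e1 : k + 4 - 2 = k + 1 + 1 := by omega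
      rw [e1] at hs
      omega
    · right; right; right
      refine ⟨hup' (by omega), ?_⟩
      rw [h1, hk'] at hs
      rw [hk']
      have e1 : k + 4 - 1 = k + 2 + 1 := by omega
      rw [e1] at hs
      omega

end Pool.Agent.H88.QP
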