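import Mathlib
import Pool.Agent.H88.QP.Core

/-!
# q-polynomials: reduction and examples
-/

set_option autoImplicit false
set_option linter.unusedSectionVars false

namespace Pool.Agent.H88.QP

open Module Finset

/-- the q-polynomial with coefficients `a 0, …, a (n-1)`, as a function -/
def qpoly {L : Type*} [Field L] (q : ℕ) {n : ℕ} (a : Fin n → L) (x : L) : L :=
  ∑ i : Fin n, a i * x ^ (q ^ (i : ℕ))

variable {K L : Type*} [Field K] [Field L] [Algebra K L] [Finite L] [Finite K]

theorem exists_lin {n : ℕ} (a : Fin n → L) :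
    ∃ g : L →ₗ[K] L, ∀ x, g x = qpoly (Nat.card K) a x := by
  let _ := Fintype.ofFinite K
  refine ⟨∑ i, (LinearMap.mulLeft K (a i)) ∘ₗ
    ((FiniteField.frobeniusAlgHom K L) ^ (i : ℕ)).toLinearMap, fun x => ?_⟩
  simp only [LinearMap.sum_apply, LinearMap.comp_apply, LinearMap.mulLeft_apply,
    AlgHom.toLinearMap_apply, AlgHom.coe_pow, FiniteField.coe_frobeniusAlgHom, pow_iterate,
    Fintype.card_eq_nat_card, qpoly]

theorem ncard_shift (g : L →ₗ[K] L) (m : L) :
    (Im (g - LinearMap.mulLeft K m)).ncard = (Im g).ncard := by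
  have : Im (g - LinearMap.mulLeft K m) = (fun c => c - m) '' Im g := by
    ext c
    constructor
    · rintro ⟨x, hx, h⟩
      refine ⟨c + m, ⟨x, hx, ?_⟩, by simp⟩
      rw [← h]
      simp only [LinearMap.sub_apply, LinearMap.mulLeft_apply]
      field_simp
      ring
    · rintro ⟨d, ⟨x, hx, h⟩, rfl⟩
      refine ⟨x, hx, ?_⟩
      rw [← h]
      simp only [LinearMap.sub_apply, LinearMap.mulLeft_apply]
      field_simp
  rw [this, Set.ncard_image_of_injective _ (sub_left_injective)]

theorem forward (g : L →ₗ[K] L) (hn : 4 ≤ finrank K L) (m : L)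
    (hm : Nat.card K ^ (finrank K L - 2) ≤ {x : L | g x = m * x}.ncard) :
    (Im g).ncard = 1 ∨
    (Im g).ncard = Nat.card K ^ (finrank K L - 1) + 1 ∨
    (Im g).ncard = Nat.card K ^ (finrank K L - 1) + Nat.card K ^ (finrank K L - 2) + 1 ∨
    (Im g).ncard + Nat.card K ^ (finrank K L - 3)
      = Nat.card K ^ (finrank K L - 1) + Nat.card K ^ (finrank K L - 2) + 1 ∨
    (Even (finrank K L) ∧ (Im g).ncard = Nat.card K ^ (finrank K L - 2) + 1) := by
  have hfd := fd (K := K) (L := L)
  have h1 : {x : L | g x = m * x}.ncard = Nat.card K ^ finrank K (E g m) := by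
    rw [← card_sub, ← Nat.card_coe_set_eq]
    congr 1
    have : ({x : L | g x = m * x}) = ((E g m : Submodule K L) : Set L) := by
      ext x; rw [SetLike.mem_coe, mem_E]; rfl
    rw [this]; rfl
  rw [h1, Nat.pow_le_pow_iff_right Finite.one_lt_card] at hm
  rw [← ncard_shift g m]
  have h2 : finrank K (E g m) ≤ finrank K L := Submodule.finrank_le _
  have h3 : E g m = LinearMap.ker (g - LinearMap.mulLeft K m) := rfl
  rcases (by omega : finrank K (E g m) = finrank K L ∨ finrank K (E g m) + 1 = finrank K L ∨
    finrank K (E g m) + 2 = finrank K L) with h | h | h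
  · left
    have h4 : LinearMap.ker (g - LinearMap.mulLeft K m) = ⊤ :=
      Submodule.eq_top_of_finrank_eq (h3 ▸ h)
    have h5 : g - LinearMap.mulLeft K m = 0 := LinearMap.ker_eq_top.mp h4
    rw [h5]
    have : Im ((0 : L →ₗ[K] L) : L → L) = {0} := by
      ext c
      constructor
      · rintro ⟨x, hx, rfl⟩; simp
      · rintro rfl; exact ⟨1, one_ne_zero, by simp⟩
    rw [this, Set.ncard_singleton]
  · right; left
    exact size_one _ (h3 ▸ h) (by omega)
  · right
    rcases sizes _ (h3 ▸ h) hn with h' | h' | h' | h'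
    · exact Or.inl h'
    · exact Or.inr (Or.inl h')
    · exact Or.inr (Or.inr (Or.inl h'))
    · exact Or.inr (Or.inr (Or.inr h'))

/-! ### examples -/

theorem finrank_orth (S : Submodule K L) (W : Submodule K L)
    (hW : ∀ x, x ∈ W ↔ ∀ s ∈ S, Algebra.trace K L (s * x) = 0) :
    finrank K W + finrank K S = finrank K L := by
  have hfd := fd (K := K) (L := L)
  have h1 : W = (Algebra.traceForm K L).orthogonal S := by
    ext x
    rw [hW, LinearMap.BilinForm.mem_orthogonal_iff]
    rfl
  have h2 := LinearMap.BilinForm.finrank_orthogonal (traceForm_nondegenerate K L) S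
  have h3 : finrank K S ≤ finrank K L := Submodule.finrank_le _
  rw [h1, h2]
  omega

/-- the trace, as an endomorphism -/
noncomputable def G0 (K : Type*) (L : Type*) [Field K] [Field L] [Algebra K L] : L →ₗ[K] L :=
  Algebra.linearMap K L ∘ₗ Algebra.trace K L

theorem G0_apply (x : L) : G0 K L x = algebraMap K L (Algebra.trace K L x) := rfl

theorem ker_G0 : finrank K (LinearMap.ker (G0 K L)) + 1 = finrank K L := by
  have hfd := fd (K := K) (L := L)
  have := finrank_orth (Submodule.span K {(1 : L)}) (LinearMap.ker (G0 K L)) (by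
    intro x
    rw [LinearMap.mem_ker, G0_apply]
    constructor
    · intro h s hs
      obtain ⟨k, rfl⟩ := Submodule.mem_span_singleton.mp hs
      have h' : Algebra.trace K L x = 0 := by simpa using h
      rw [smul_mul_assoc, one_mul, map_smul, h', smul_zero]
    · intro h
      have := h 1 (Submodule.mem_span_singleton_self 1)
      rw [one_mul] at this
      rw [this, map_zero])
  rwa [finrank_span_singleton one_ne_zero] at this

theorem qpoly_one (x : L) :
    qpoly (Nat.card K) (fun _ : Fin (finrank K L) => (1 : L)) x = G0 K L x := by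
  rw [G0_apply, FiniteField.algebraMap_trace_eq_sum_pow, qpoly, Finset.sum_range]
  simp

/-- the map `tr x + α tr (β x)` -/
noncomputable def G (K : Type*) {L : Type*} [Field K] [Field L] [Algebra K L] (α β : L) :
    L →ₗ[K] L :=
  G0 K L + LinearMap.mulLeft K α ∘ₗ G0 K L ∘ₗ LinearMap.mulLeft K β

theorem G_apply (α β x : L) : G K α β x = algebraMap K L (Algebra.trace K L x)
    + α * algebraMap K L (Algebra.trace K L (β * x)) := rfl

theorem qpoly_G (α β x : L) :
    qpoly (Nat.card K) (fun i : Fin (finrank K L) => 1 + α * β ^ (Nat.card K ^ (i : ℕ))) x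
      = G K α β x := by
  rw [G_apply, FiniteField.algebraMap_trace_eq_sum_pow, FiniteField.algebraMap_trace_eq_sum_pow,
    qpoly, Finset.sum_range, Finset.sum_range, Finset.mul_sum, ← Finset.sum_add_distrib]
  refine Finset.sum_congr rfl fun i _ => ?_
  rw [mul_pow]; ring

theorem comb_zero {α : L} (hα : α ∉ Set.range (algebraMap K L)) {a b : K}
    (h : algebraMap K L a + α * algebraMap K L b = 0) : a = 0 ∧ b = 0 := by
  by_cases hb : b = 0
  · subst hb
    refine ⟨?_, rfl⟩
    simpa using h
  · exfalso
    apply hα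
    refine ⟨-a / b, ?_⟩
    have hb' : algebraMap K L b ≠ 0 := by simpa using hb
    rw [map_div₀, map_neg, div_eq_iff hb']
    linear_combination -h

theorem G_zero {α : L} (hα : α ∉ Set.range (algebraMap K L)) (β x : L) :
    G K α β x = 0 ↔ Algebra.trace K L x = 0 ∧ Algebra.trace K L (β * x) = 0 := by
  rw [G_apply]
  constructor
  · exact comb_zero hα
  · rintro ⟨h1, h2⟩
    rw [h1, h2]; simp

theorem finrank_pair {β : L} (hβ : β ∉ Set.range (algebraMap K L)) :
    finrank K (Submodule.span K {1, β}) = 2 := by
  have hli : LinearIndependent K ![(1 : L), β] := by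
    rw [LinearIndependent.pair_iff]
    intro s t h
    apply comb_zero hβ (a := s) (b := t)
    rw [Algebra.smul_def, Algebra.smul_def] at h
    linear_combination h
  have h1 := finrank_span_eq_card hli
  have hr : Set.range ![(1 : L), β] = {1, β} := by
    ext x
    simp [eq_comm]
    tauto
  rw [hr] at h1
  simpa using h1

theorem ker_G {α β : L} (hα : α ∉ Set.range (algebraMap K L))
    (hβ : β ∉ Set.range (algebraMap K L)) :
    finrank K (LinearMap.ker (G K α β)) + 2 = finrank K L := by
  have := finrank_orth (Submodule.span K {1, β}) (LinearMap.ker (G K α β)) (by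
    intro x
    rw [LinearMap.mem_ker, G_zero hα]
    constructor
    · rintro ⟨h1, h2⟩ s hs
      obtain ⟨a, b, rfl⟩ := Submodule.mem_span_pair.mp hs
      rw [add_mul, smul_mul_assoc, smul_mul_assoc, one_mul, map_add, map_smul, map_smul, h1, h2]
      simp
    · intro h
      refine ⟨?_, ?_⟩
      · have := h 1 (Submodule.subset_span (by simp))
        rwa [one_mul] at this
      · exact h β (Submodule.subset_span (by simp)))
  rwa [finrank_pair hβ] at this

theorem range_G {α β : L} (hα : α ∉ Set.range (algebraMap K L))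
    (hβ : β ∉ Set.range (algebraMap K L)) :
    LinearMap.range (G K α β) = Submodule.span K {1, α} := by
  have hfd := fd (K := K) (L := L)
  apply Submodule.eq_of_le_of_finrank_eq
  · rintro _ ⟨x, rfl⟩
    rw [G_apply, Submodule.mem_span_pair]
    refine ⟨Algebra.trace K L x, Algebra.trace K L (β * x), ?_⟩
    rw [Algebra.smul_def, Algebra.smul_def]; ring
  · rw [finrank_pair hα]
    have h1 := LinearMap.finrank_range_add_finrank_ker (G K α β)
    have h2 := ker_G hα hβ
    omega


/-- the values of `d` counted by the size formula, for the examples -/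
theorem mem_D {α β : L} (hα : α ∉ Set.range (algebraMap K L))
    (hβ : β ∉ Set.range (algebraMap K L)) {d : L} (hd : Phi (G K α β) d = LinearMap.id) :
    Algebra.trace K L (β * d) = 0 ∧ Algebra.trace K L (α * d) = 0 ∧
      Algebra.trace K L (α * β * d) = 1 := by
  rw [Phi_eq_id, range_G hα hβ] at hd
  have h1 := hd 1 (Submodule.subset_span (by simp))
  have h2 := hd α (Submodule.subset_span (by simp))
  rw [G_apply, mul_one] at h1
  rw [G_apply] at h2
  have h3 := comb_zero hα (a := Algebra.trace K L d - 1) (b := Algebra.trace K L (β * d)) (by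
    rw [map_sub, map_one]; linear_combination h1)
  have h4 := comb_zero hα (a := Algebra.trace K L (d * α))
    (b := Algebra.trace K L (β * (d * α)) - 1) (by
    rw [map_sub, map_one]; linear_combination h2)
  refine ⟨h3.2, ?_, ?_⟩
  · rw [mul_comm α d]; exact h4.1
  · have : α * β * d = β * (d * α) := by ring
    rw [this]; exact sub_eq_zero.mp h4.2

theorem size_empty {α β : L} (hα : α ∉ Set.range (algebraMap K L))
    (hβ : β ∉ Set.range (algebraMap K L)) (h : α * β = α + β) (hn : 4 ≤ finrank K L) :
    (Im (G K α β)).ncard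
      = Nat.card K ^ (finrank K L - 1) + Nat.card K ^ (finrank K L - 2) + 1 := by
  have hfd := fd (K := K) (L := L)
  have hk := ker_G hα hβ
  have hr : finrank K (LinearMap.range (G K α β)) = 2 := by
    rw [range_G hα hβ, finrank_pair hα]
  have hs := size (G K α β) hr hk (by omega)
  have hD : {d : L | Phi (G K α β) d = LinearMap.id} = ∅ := by
    rw [Set.eq_empty_iff_forall_notMem]
    intro d hd
    obtain ⟨h1, h2, h3⟩ := mem_D hα hβ hd
    rw [h, add_mul, map_add, h1, h2, add_zero] at h3
    exact zero_ne_one h3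
  rw [hD, Set.ncard_empty] at hs
  omega

theorem size_generic {θ : L} (hθ : LinearIndependent K ![(1 : L), θ, θ ^ 2, θ ^ 3])
    (hα : θ ∉ Set.range (algebraMap K L)) (hβ : θ ^ 2 ∉ Set.range (algebraMap K L))
    (hn : 4 ≤ finrank K L) :
    (Im (G K θ (θ ^ 2))).ncard + Nat.card K ^ (finrank K L - 3)
      = Nat.card K ^ (finrank K L - 1) + Nat.card K ^ (finrank K L - 2) + 1 := by
  have hfd := fd (K := K) (L := L)
  have hk := ker_G hα hβ
  have hr : finrank K (LinearMap.range (G K θ (θ ^ 2))) = 2 := by
    rw [range_G hα hβ, finrank_pair hα]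
  have hs := size (G K θ (θ ^ 2)) hr hk (by omega)
  have hker : finrank K (LinearMap.ker (Phi (G K θ (θ ^ 2)))) + 4 = finrank K L := by
    have h1 := finrank_orth (Submodule.span K (Set.range ![(1 : L), θ, θ ^ 2, θ ^ 3]))
      (LinearMap.ker (Phi (G K θ (θ ^ 2)))) (by
      intro x
      constructor
      · intro hx
        rw [LinearMap.mem_ker] at hx
        have hy : ∀ y ∈ Submodule.span K {1, θ}, G K θ (θ ^ 2) (x * y) = 0 := by
          intro y hy
          rw [← range_G hα hβ] at hy
          have := congrArg (fun f => ((f ⟨y, hy⟩ : LinearMap.range (G K θ (θ ^ 2))) : L)) hx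
          simpa [Phi_apply] using this
        have e1 := hy 1 (Submodule.subset_span (by simp))
        have e2 := hy θ (Submodule.subset_span (by simp))
        rw [G_zero hα, mul_one] at e1
        rw [G_zero hα] at e2
        intro s hs'
        induction hs' using Submodule.span_induction with
        | mem s hs'' =>
          obtain ⟨i, rfl⟩ := hs''
          fin_cases i
          · simpa using e1.1
          · simpa [mul_comm] using e2.1
          · simpa using e1.2
          · have : θ ^ 3 * x = θ ^ 2 * (x * θ) := by ring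
            show Algebra.trace K L (θ ^ 3 * x) = 0
            rw [this]; exact e2.2
        | zero => simp
        | add a b _ _ ha hb => rw [add_mul, map_add, ha, hb, add_zero]
        | smul k a _ ha => rw [smul_mul_assoc, map_smul, ha, smul_zero]
      · intro h
        have f0 := h 1 (Submodule.subset_span ⟨0, rfl⟩)
        have f1 := h θ (Submodule.subset_span ⟨1, rfl⟩)
        have f2 := h (θ ^ 2) (Submodule.subset_span ⟨2, rfl⟩)
        have f3 := h (θ ^ 3) (Submodule.subset_span ⟨3, rfl⟩)
        rw [LinearMap.mem_ker]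
        ext y
        rw [Phi_apply]
        have hy : (y : L) ∈ Submodule.span K {1, θ} := (range_G hα hβ).le y.2
        rw [Submodule.mem_span_pair] at hy
        obtain ⟨a, b, hab⟩ := hy
        rw [← hab]
        show G K θ (θ ^ 2) (x * (a • 1 + b • θ)) = 0
        rw [G_zero hα]
        constructor
        · have : x * (a • 1 + b • θ) = a • ((1 : L) * x) + b • (θ * x) := by
            rw [mul_add, mul_smul_comm, mul_smul_comm, mul_one, one_mul, mul_comm x θ]
          rw [this, map_add, map_smul, map_smul, f0, f1]; simp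
        · have : θ ^ 2 * (x * (a • 1 + b • θ)) = a • (θ ^ 2 * x) + b • (θ ^ 3 * x) := by
            rw [mul_add, mul_smul_comm, mul_smul_comm, mul_one, mul_add, mul_smul_comm,
              mul_smul_comm]
            congr 2
            ring
          rw [this, map_add, map_smul, map_smul, f2, f3]; simp)
    have h2 := finrank_span_eq_card hθ
    rw [h2] at h1
    simpa using h1
  have hne := (ker_Phi_lower (G K θ (θ ^ 2)) hr).2 hker.symm
  have hcard : {d : L | Phi (G K θ (θ ^ 2)) d = LinearMap.id}.ncard
      = Nat.card K ^ finrank K (LinearMap.ker (Phi (G K θ (θ ^ 2)))) := by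
    rcases card_D (G K θ (θ ^ 2)) with h | h
    · exfalso
      rw [Set.ncard_eq_zero (Set.toFinite _)] at h
      rw [h] at hne
      exact Set.not_nonempty_empty hne
    · exact h
  rw [hcard, ← pow_succ] at hs
  have e : finrank K (LinearMap.ker (Phi (G K θ (θ ^ 2)))) + 1 = finrank K L - 3 := by omega
  rw [e] at hs
  omega

theorem card_ker (g : L →ₗ[K] L) :
    {x : L | g x = 0}.ncard = Nat.card K ^ finrank K (LinearMap.ker g) := by
  rw [← card_sub, ← Nat.card_coe_set_eq]
  rfl

/-- an element whose first four powers are independent -/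
theorem exists_theta (hn : 4 ≤ finrank K L) :
    ∃ θ : L, LinearIndependent K ![(1 : L), θ, θ ^ 2, θ ^ 3] := by
  have hfd := fd (K := K) (L := L)
  obtain ⟨θ, hθ⟩ := Field.exists_primitive_element K L
  have h1 : (minpoly K θ).natDegree = finrank K L :=
    (Field.primitive_element_iff_minpoly_natDegree_eq K θ).mp hθ
  have h2 := linearIndependent_pow (K := K) θ
  refine ⟨θ, ?_⟩
  have h3 : (![(1 : L), θ, θ ^ 2, θ ^ 3]) =
      (fun i : Fin (minpoly K θ).natDegree => θ ^ (i : ℕ)) ∘ (Fin.castLE (by omega)) := by
    funext i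
    fin_cases i <;> simp
  rw [h3]
  exact h2.comp _ (Fin.castLE_injective _)


theorem theta_notMem {θ : L} (hθ : LinearIndependent K ![(1 : L), θ, θ ^ 2, θ ^ 3]) :
    θ ∉ Set.range (algebraMap K L) ∧ θ ^ 2 ∉ Set.range (algebraMap K L) := by
  have h := Fintype.linearIndependent_iff.mp hθ
  constructor
  · rintro ⟨k, hk⟩
    have h1 := h ![-k, 1, 0, 0] (by
      simp [Fin.sum_univ_four, Algebra.smul_def, hk]) 1
    simp at h1
  · rintro ⟨k, hk⟩
    have h1 := h ![-k, 0, 1, 0] (by
      simp [Fin.sum_univ_four, Algebra.smul_def, hk]) 2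
    simp at h1

/-- a `q`-polynomial of even length all whose odd coefficients vanish is a `q²`-polynomial -/
theorem qpoly_even {L : Type*} [Field L] (q m : ℕ) (x : L) {n : ℕ} (hn : n = 2 * m) :
    qpoly q (fun i : Fin n => if (i : ℕ) % 2 = 0 then (1 : L) else 0) x
      = qpoly (q ^ 2) (fun _ : Fin m => (1 : L)) x := by
  subst hn
  have h1 : ∀ m : ℕ, ∑ i ∈ Finset.range (2 * m), (if i % 2 = 0 then (1 : L) else 0) * x ^ (q ^ i)
      = ∑ i ∈ Finset.range m, 1 * x ^ ((q ^ 2) ^ i) := by
    intro m
    induction m with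
    | zero => simp
    | succ m ih =>
      rw [show 2 * (m + 1) = 2 * m + 1 + 1 from by ring, Finset.sum_range_succ,
        Finset.sum_range_succ, ih, Finset.sum_range_succ]
      have e1 : (2 * m) % 2 = 0 := by omega
      have e2 : (2 * m + 1) % 2 ≠ 0 := by omega
      rw [if_pos e1, if_neg e2, zero_mul, add_zero, ← pow_mul]
  have h2 := h1 m
  rw [Finset.sum_range, Finset.sum_range] at h2
  exact h2

/-- the trace to the quadratic subfield -/
theorem even_example (hev : Even (finrank K L)) (hn : 4 ≤ finrank K L) :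
    ∃ a : Fin (finrank K L) → L, Nat.card K ^ (finrank K L - 2)
        ≤ {x : L | qpoly (Nat.card K) a x = 0 * x}.ncard ∧
      (Im (qpoly (Nat.card K) a)).ncard = Nat.card K ^ (finrank K L - 2) + 1 := by
  obtain ⟨m, hm⟩ := hev
  have hm2 : finrank K L = 2 * m := by omega
  obtain ⟨p, hp⟩ := CharP.exists K
  have hprime : Fact p.Prime := ⟨CharP.char_is_prime K p⟩
  let F := FiniteField.Extension K p 2
  have hF : finrank K F = 2 := FiniteField.finrank_extension K p 2
  have hdvd : finrank K F ∣ finrank K L := by rw [hF, hm2]; exact dvd_mul_right _ _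
  obtain ⟨φ⟩ := FiniteField.nonempty_algHom_of_finrank_dvd hdvd
  let _ : Algebra F L := φ.toRingHom.toAlgebra
  have hst : IsScalarTower K F L := IsScalarTower.of_algebraMap_eq' φ.comp_algebraMap.symm
  have hmul : finrank K F * finrank F L = finrank K L := Module.finrank_mul_finrank K F L
  have hFL : finrank F L = m := by rw [hF, hm2] at hmul; omega
  have hcardF : Nat.card F = Nat.card K ^ 2 := FiniteField.natCard_extension K p 2
  refine ⟨fun i => if (i : ℕ) % 2 = 0 then (1 : L) else 0, ?_, ?_⟩
  all_goals
    have hfun : ∀ x : L, qpoly (Nat.card K) (fun i : Fin (finrank K L) =>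
        if (i : ℕ) % 2 = 0 then (1 : L) else 0) x = G0 F L x := by
      intro x
      rw [qpoly_even (Nat.card K) m x hm2, ← qpoly_one, hcardF, hFL]
    have hk := ker_G0 (K := F) (L := L)
  · have h1 : {x : L | qpoly (Nat.card K) (fun i : Fin (finrank K L) =>
        if (i : ℕ) % 2 = 0 then (1 : L) else 0) x = 0 * x} = {x : L | G0 F L x = 0} := by
      ext x
      show _ = _ ↔ _ = _
      rw [hfun, zero_mul]
    rw [h1, card_ker, hcardF, ← pow_mul]
    apply Nat.pow_le_pow_right Nat.card_pos
    omega
  · have h1 : qpoly (Nat.card K) (fun i : Fin (finrank K L) =>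
        if (i : ℕ) % 2 = 0 then (1 : L) else 0) = G0 F L := funext hfun
    rw [h1, size_one _ hk (by omega), hcardF, ← pow_mul]
    congr 2
    omega

/-- the classification -/
theorem main (hn : 4 ≤ finrank K L) (s : ℕ) :
    (∃ a : Fin (finrank K L) → L,
      (∃ m : L, Nat.card K ^ (finrank K L - 2)
        ≤ {x : L | qpoly (Nat.card K) a x = m * x}.ncard) ∧
      (Im (qpoly (Nat.card K) a)).ncard = s) ↔
    s = 1 ∨
    s = Nat.card K ^ (finrank K L - 1) + 1 ∨
    s = Nat.card K ^ (finrank K L - 1) + Nat.card K ^ (finrank K L - 2) + 1 ∨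
    s + Nat.card K ^ (finrank K L - 3)
      = Nat.card K ^ (finrank K L - 1) + Nat.card K ^ (finrank K L - 2) + 1 ∨
    (Even (finrank K L) ∧ s = Nat.card K ^ (finrank K L - 2) + 1) := by
  have hfd := fd (K := K) (L := L)
  constructor
  · rintro ⟨a, ⟨m, hm⟩, rfl⟩
    obtain ⟨g, hg⟩ := exists_lin (K := K) a
    have h1 : qpoly (Nat.card K) a = g := (funext hg).symm
    rw [h1] at hm ⊢
    exact forward g hn m hm
  · rintro (rfl | rfl | rfl | h | ⟨hev, rfl⟩)
    · refine ⟨fun _ => 0, ⟨0, ?_⟩, ?_⟩
      · have : {x : L | qpoly (Nat.card K) (fun _ : Fin (finrank K L) => (0 : L)) x = 0 * x}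
            = Set.univ := by
          ext x; simp [qpoly]
        rw [this, Set.ncard_univ, Module.natCard_eq_pow_finrank (K := K) (V := L)]
        exact Nat.pow_le_pow_right Nat.card_pos (by omega)
      · have : Im (qpoly (Nat.card K) (fun _ : Fin (finrank K L) => (0 : L))) = {0} := by
          ext c
          constructor
          · rintro ⟨x, hx, rfl⟩; simp [qpoly]
          · rintro rfl; exact ⟨1, one_ne_zero, by simp [qpoly]⟩
        rw [this, Set.ncard_singleton]
    · have h1 : qpoly (Nat.card K) (fun _ : Fin (finrank K L) => (1 : L)) = G0 K L :=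
        funext qpoly_one
      have hk := ker_G0 (K := K) (L := L)
      refine ⟨fun _ => 1, ⟨0, ?_⟩, ?_⟩
      · rw [h1]
        simp only [zero_mul]
        rw [card_ker]
        exact Nat.pow_le_pow_right Nat.card_pos (by omega)
      · rw [h1]
        exact size_one _ hk (by omega)
    · obtain ⟨θ, hθ⟩ := exists_theta (K := K) (L := L) hn
      have hα : θ ∉ Set.range (algebraMap K L) := (theta_notMem hθ).1
      have h1 : θ - 1 ≠ 0 := by
        intro h
        exact hα ⟨1, by rw [map_one]; linear_combination -h⟩
      have hβ : θ / (θ - 1) ∉ Set.range (algebraMap K L) := by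
        rintro ⟨k, hk⟩
        rw [eq_div_iff h1] at hk
        by_cases hk1 : k = 1
        · subst hk1
          rw [map_one, one_mul] at hk
          exact one_ne_zero (α := L) (by linear_combination -hk)
        · apply hα
          refine ⟨k / (k - 1), ?_⟩
          have h2 : algebraMap K L k - 1 ≠ 0 := by
            intro h
            apply hk1
            apply (algebraMap K L).injective
            rw [map_one]; linear_combination h
          rw [map_div₀, map_sub, map_one, div_eq_iff h2]
          linear_combination -hk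
      have h2 : θ * (θ / (θ - 1)) = θ + θ / (θ - 1) := by
        field_simp; ring
      refine ⟨fun i => 1 + θ * (θ / (θ - 1)) ^ (Nat.card K ^ (i : ℕ)), ⟨0, ?_⟩, ?_⟩
      · have h3 : qpoly (Nat.card K) (fun i : Fin (finrank K L) =>
            1 + θ * (θ / (θ - 1)) ^ (Nat.card K ^ (i : ℕ))) = G K θ (θ / (θ - 1)) :=
          funext (qpoly_G _ _)
        rw [h3]
        simp only [zero_mul]
        rw [card_ker]
        have := ker_G hα hβ
        exact Nat.pow_le_pow_right Nat.card_pos (by omega)
      · have h3 : qpoly (Nat.card K) (fun i : Fin (finrank K L) =>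
            1 + θ * (θ / (θ - 1)) ^ (Nat.card K ^ (i : ℕ))) = G K θ (θ / (θ - 1)) :=
          funext (qpoly_G _ _)
        rw [h3]
        exact size_empty hα hβ h2 hn
    · obtain ⟨θ, hθ⟩ := exists_theta (K := K) (L := L) hn
      have hα : θ ∉ Set.range (algebraMap K L) := (theta_notMem hθ).1
      have hβ : θ ^ 2 ∉ Set.range (algebraMap K L) := (theta_notMem hθ).2
      have h3 : qpoly (Nat.card K) (fun i : Fin (finrank K L) =>
            1 + θ * (θ ^ 2) ^ (Nat.card K ^ (i : ℕ))) = G K θ (θ ^ 2) :=
          funext (qpoly_G _ _)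
      refine ⟨fun i => 1 + θ * (θ ^ 2) ^ (Nat.card K ^ (i : ℕ)), ⟨0, ?_⟩, ?_⟩
      · rw [h3]
        simp only [zero_mul]
        rw [card_ker]
        have := ker_G hα hβ
        exact Nat.pow_le_pow_right Nat.card_pos (by omega)
      · rw [h3]
        have := size_generic hθ hα hβ hn
        omega
    · obtain ⟨a, h1, h2⟩ := even_example hev hn
      exact ⟨a, ⟨0, h1⟩, h2⟩

end Pool.Agent.H88.QP
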