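import Mathlib
import Pool.Agent.H88.QP.Main

/-!
# q-polynomials with a large eigenspace: counting singular matrices
-/

set_option autoImplicit false
set_option linter.unusedSectionVars false

namespace Pool.Agent.H88.QP

open Module Finset

variable {K L : Type*} [Field K] [Field L] [Algebra K L] [Finite L] [Finite K]

/-- the inverses of the nonzero values of `g(x)/x` -/
def Sig (g : L →ₗ[K] L) : Set L :=
  {d | ∃ y : LinearMap.range g, y ≠ 0 ∧ Phi g d y = y}

theorem mem_Sig (g : L →ₗ[K] L) (d : L) :
    d ∈ Sig g ↔ ∃ y ∈ LinearMap.range g, y ≠ 0 ∧ g (d * y) = y := by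
  constructor
  · rintro ⟨y, hy, h⟩
    refine ⟨y, y.2, fun h' => hy (Subtype.ext h'), ?_⟩
    have := congrArg Subtype.val h
    rwa [Phi_apply] at this
  · rintro ⟨y, hy, hy0, h⟩
    refine ⟨⟨y, hy⟩, fun h' => hy0 (congrArg Subtype.val h'), ?_⟩
    apply Subtype.ext
    rw [Phi_apply]
    exact h

theorem ncard_sig (g : L →ₗ[K] L) (h0 : (0 : L) ∈ Im g) :
    (Im g).ncard = (Sig g).ncard + 1 := by
  have h1 : Im g = insert 0 ((fun d : L => d⁻¹) '' Sig g) := by
    ext c
    rw [Set.mem_insert_iff]
    constructor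
    · intro hc
      by_cases hc0 : c = 0
      · exact Or.inl hc0
      · right
        obtain ⟨x, hx, h⟩ := (mem_Im g c).mp hc
        refine ⟨c⁻¹, ?_, inv_inv c⟩
        rw [mem_Sig]
        refine ⟨c * x, ⟨x, h⟩, mul_ne_zero hc0 hx, ?_⟩
        rw [inv_mul_cancel_left₀ hc0, h]
    · rintro (rfl | ⟨d, hd, rfl⟩)
      · exact h0
      · rw [mem_Sig] at hd
        obtain ⟨y, hy, hy0, h⟩ := hd
        have hd0 : d ≠ 0 := by
          rintro rfl
          rw [zero_mul, map_zero] at h
          exact hy0 h.symm
        rw [mem_Im]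
        refine ⟨d * y, mul_ne_zero hd0 hy0, ?_⟩
        rw [h]
        field_simp
  have h2 : (0 : L) ∉ (fun d : L => d⁻¹) '' Sig g := by
    rintro ⟨d, hd, h⟩
    have hd0 : d = 0 := by simpa using h
    subst hd0
    rw [mem_Sig] at hd
    obtain ⟨y, hy, hy0, h⟩ := hd
    rw [zero_mul, map_zero] at h
    exact hy0 h.symm
  rw [h1, Set.ncard_insert_of_notMem h2 (Set.toFinite _),
    Set.ncard_image_of_injective _ inv_injective]

/-- the fibres of `Phi g` -/
theorem card_fib (g : L →ₗ[K] L) (A : LinearMap.range g →ₗ[K] LinearMap.range g) :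
    {d : L | Phi g d = A}.ncard = 0 ∨
    {d : L | Phi g d = A}.ncard = Nat.card K ^ finrank K (LinearMap.ker (Phi g)) := by
  rcases Set.eq_empty_or_nonempty {d : L | Phi g d = A} with h | ⟨d0, hd0⟩
  · left; rw [h, Set.ncard_empty]
  · right
    have h1 : {d : L | Phi g d = A} = (fun x => x + d0) '' (LinearMap.ker (Phi g) : Set L) := by
      ext d
      constructor
      · intro hd
        refine ⟨d - d0, ?_, by simp⟩
        rw [SetLike.mem_coe, LinearMap.mem_ker, map_sub]
        have : Phi g d = A := hd
        have h' : Phi g d0 = A := hd0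
        rw [this, h', sub_self]
      · rintro ⟨x, hx, rfl⟩
        rw [SetLike.mem_coe, LinearMap.mem_ker] at hx
        have h' : Phi g d0 = A := hd0
        show Phi g (x + d0) = A
        rw [map_add, hx, h', zero_add]
    rw [h1, Set.ncard_image_of_injective _ (add_left_injective d0), ← card_sub]
    exact (Nat.card_coe_set_eq _).symm

theorem sig_sum (g : L →ₗ[K] L) [Fintype (LinearMap.range g →ₗ[K] LinearMap.range g)]
    [DecidablePred fun A : LinearMap.range g →ₗ[K] LinearMap.range g => ∃ y, y ≠ 0 ∧ A y = y] :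
    (Sig g).ncard = ∑ A ∈ Finset.univ.filter
      (fun A : LinearMap.range g →ₗ[K] LinearMap.range g => ∃ y, y ≠ 0 ∧ A y = y),
      {d : L | Phi g d = A}.ncard := by
  classical
  have : Fintype L := Fintype.ofFinite L
  have h1 : (Sig g).ncard = (Finset.univ.filter (fun d : L => d ∈ Sig g)).card := by
    rw [← Set.ncard_coe_finset]
    congr 1
    ext d; simp
  rw [h1, Finset.card_eq_sum_card_fiberwise (f := fun d => Phi g d)
    (t := Finset.univ.filter
      (fun A : LinearMap.range g →ₗ[K] LinearMap.range g => ∃ y, y ≠ 0 ∧ A y = y))]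
  · refine Finset.sum_congr rfl fun A hA => ?_
    rw [← Set.ncard_coe_finset]
    congr 1
    ext d
    simp only [Finset.coe_filter, Finset.mem_filter, Finset.mem_univ, true_and,
      Set.mem_ofPred_eq]
    constructor
    · exact fun h => h.2
    · intro h
      refine ⟨?_, h⟩
      have := (Finset.mem_filter.mp hA).2
      obtain ⟨y, hy, hy'⟩ := this
      exact ⟨y, hy, by rw [h]; exact hy'⟩
  · intro d hd
    simp only [Finset.coe_filter, Finset.mem_univ, true_and, Set.mem_ofPred_eq] at hd ⊢
    exact hd

/-- divisibility -/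
theorem dvd_sig (g : L →ₗ[K] L) :
    Nat.card K ^ finrank K (LinearMap.ker (Phi g)) ∣ (Sig g).ncard := by
  classical
  have hfd := fd (K := K) (L := L)
  have : Finite (LinearMap.range g →ₗ[K] LinearMap.range g) :=
    Finite.of_injective (fun A => (A : LinearMap.range g → LinearMap.range g))
      DFunLike.coe_injective
  have := Fintype.ofFinite (LinearMap.range g →ₗ[K] LinearMap.range g)
  rw [sig_sum g]
  apply Finset.dvd_sum
  intro A _
  rcases card_fib g A with h | h
  · rw [h]; exact dvd_zero _
  · rw [h]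

theorem ker_Phi_ge (g : L →ₗ[K] L) :
    finrank K L ≤ finrank K (LinearMap.ker (Phi g)) + finrank K (LinearMap.range g) ^ 2 := by
  have hfd := fd (K := K) (L := L)
  let b := Module.finBasis K (LinearMap.range g)
  let P : L →ₗ[K] (Fin (finrank K (LinearMap.range g)) → LinearMap.range g) :=
    LinearMap.pi fun i => g.rangeRestrict ∘ₗ LinearMap.mulRight K (b i : L)
  have hP : ∀ d i, P d i = Phi g d (b i) := fun d i => rfl
  have hker : LinearMap.ker P = LinearMap.ker (Phi g) := by
    ext d
    rw [LinearMap.mem_ker, LinearMap.mem_ker]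
    constructor
    · intro h
      apply b.ext
      intro i
      rw [← hP, h]; rfl
    · intro h
      funext i
      rw [hP, h]; rfl
  have h1 := LinearMap.finrank_range_add_finrank_ker P
  have h2 : finrank K (Fin (finrank K (LinearMap.range g)) → LinearMap.range g)
      = finrank K (LinearMap.range g) ^ 2 := by
    rw [Module.finrank_pi_fintype]
    simp [sq]
  have h3 : finrank K (LinearMap.range P) ≤ finrank K (LinearMap.range g) ^ 2 := by
    rw [← h2]; exact Submodule.finrank_le _
  rw [hker] at h1
  omega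

/-- part one: the congruence -/
theorem congr_one {k : ℕ} (hk : k ^ 2 ≤ finrank K L) (hn : 2 ≤ finrank K L)
    (a : Fin (finrank K L) → L) (m : L)
    (hm : Nat.card K ^ (finrank K L - k) ≤ {x : L | qpoly (Nat.card K) a x = m * x}.ncard) :
    (Im (qpoly (Nat.card K) a)).ncard ≡ 1 [MOD Nat.card K ^ (finrank K L - k ^ 2)] := by
  have hfd := fd (K := K) (L := L)
  obtain ⟨g, hg⟩ := exists_lin (K := K) a
  have h1 : qpoly (Nat.card K) a = g := (funext hg).symm
  rw [h1] at hm ⊢
  rw [← ncard_shift g m]
  have hkn : k < finrank K L := by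
    rcases Nat.lt_or_ge k 2 with h | h
    · omega
    · nlinarith
  have h2 : {x : L | g x = m * x}.ncard = Nat.card K ^ finrank K (E g m) := by
    rw [← card_sub, ← Nat.card_coe_set_eq]
    congr 1
    have : ({x : L | g x = m * x}) = ((E g m : Submodule K L) : Set L) := by
      ext x; rw [SetLike.mem_coe, mem_E]; rfl
    rw [this]; rfl
  rw [h2, Nat.pow_le_pow_iff_right Finite.one_lt_card] at hm
  set g' := g - LinearMap.mulLeft K m with hg'
  have h3 : E g m = LinearMap.ker g' := rfl
  rw [h3] at hm
  have h0 : (0 : L) ∈ Im g' := by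
    have : Nontrivial (LinearMap.ker g') := by
      apply Module.nontrivial_of_finrank_pos (R := K); omega
    obtain ⟨x, hx⟩ := exists_ne (0 : LinearMap.ker g')
    rw [mem_Im]
    refine ⟨x, fun h => hx (Subtype.ext h), ?_⟩
    rw [zero_mul]; exact x.2
  rw [ncard_sig g' h0]
  have h4 := LinearMap.finrank_range_add_finrank_ker g'
  have h5 := ker_Phi_ge g'
  have h6 : finrank K (LinearMap.range g') ^ 2 ≤ k ^ 2 := by
    apply Nat.pow_le_pow_left; omega
  have h7 : Nat.card K ^ (finrank K L - k ^ 2) ∣ (Sig g').ncard :=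
    dvd_trans (pow_dvd_pow _ (by omega)) (dvd_sig g')
  have h8 := (Nat.modEq_zero_iff_dvd.mpr h7).add_right 1
  simpa using h8

end Pool.Agent.H88.QP
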