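import Mathlib
import Pool.Agent.H88.QP.Rank

/-!
# q-polynomials with a large eigenspace: the sharp congruence
-/

set_option autoImplicit false
set_option linter.unusedSectionVars false

namespace Pool.Agent.H88.QP

open Module Finset

variable {K L : Type*} [Field K] [Field L] [Algebra K L] [Finite L] [Finite K]

/-- the polynomial identity behind the inversion -/
theorem ident (q X : ℤ) (k : ℕ) :
    ∏ i ∈ Finset.range k, (q ^ (i + 1) - X) = ∑ d ∈ Finset.range (k + 1),
      ((∏ i ∈ Finset.Ico d k, (q ^ (i + 1) - 1)) * (-1) ^ d) *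
        ∏ i ∈ Finset.range d, (X - q ^ i) := by
  induction k with
  | zero => simp
  | succ k ih =>
    rw [Finset.sum_range_succ, Finset.prod_range_succ]
    have h1 : ∀ d ∈ Finset.range (k + 1),
        ((∏ i ∈ Finset.Ico d (k + 1), (q ^ (i + 1) - 1)) * (-1) ^ d) *
          (∏ i ∈ Finset.range d, (X - q ^ i))
        = (((∏ i ∈ Finset.Ico d k, (q ^ (i + 1) - 1)) * (-1) ^ d) *
          (∏ i ∈ Finset.range d, (X - q ^ i))) * (q ^ (k + 1) - 1) := by
      intro d hd
      rw [Finset.prod_Ico_succ_top (by have := Finset.mem_range.mp hd; omega)]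
      ring
    rw [Finset.sum_congr rfl h1, ← Finset.sum_mul, ← ih]
    have h3 : ∏ i ∈ Finset.range k, (X - q ^ (i + 1))
        = (-1) ^ k * ∏ i ∈ Finset.range k, (q ^ (i + 1) - X) := by
      have : ∀ i ∈ Finset.range k, (X - q ^ (i + 1)) = (-1) * (q ^ (i + 1) - X) := by
        intro i _; ring
      rw [Finset.prod_congr rfl this, Finset.prod_mul_distrib, Finset.prod_const,
        Finset.card_range]
    rw [Finset.prod_range_succ' (fun i => X - q ^ i), h3, pow_zero, Finset.Ico_self,
      Finset.prod_empty]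
    have h4 : ((-1 : ℤ) ^ k) * (-1) ^ k = 1 := by
      rw [← mul_pow]; simp
    rw [pow_succ (-1 : ℤ) k]
    linear_combination (-(∏ i ∈ Finset.range k, (q ^ (i + 1) - X)) * (1 - X)) * h4

/-- the space of `y` with `g(c y) = y` -/
def Fx (g : L →ₗ[K] L) (c : L) : Submodule K L :=
  LinearMap.ker (g ∘ₗ LinearMap.mulLeft K c - LinearMap.id)

theorem mem_Fx (g : L →ₗ[K] L) (c y : L) : y ∈ Fx g c ↔ g (c * y) = y := by
  rw [Fx, LinearMap.mem_ker, LinearMap.sub_apply, LinearMap.comp_apply,
    LinearMap.mulLeft_apply, LinearMap.id_apply, sub_eq_zero]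

theorem Fx_le (g : L →ₗ[K] L) (c : L) : Fx g c ≤ LinearMap.range g := by
  intro y hy
  rw [mem_Fx] at hy
  exact ⟨_, hy⟩

theorem mem_Sig' (g : L →ₗ[K] L) (c : L) : c ∈ Sig g ↔ finrank K (Fx g c) ≠ 0 := by
  have hfd := fd (K := K) (L := L)
  rw [mem_Sig, Ne, Submodule.finrank_eq_zero, ← Ne, Submodule.ne_bot_iff]
  constructor
  · rintro ⟨y, _, hy0, h⟩
    exact ⟨y, (mem_Fx g c y).mpr h, hy0⟩
  · rintro ⟨y, hy, hy0⟩
    exact ⟨y, Fx_le g c hy, hy0, (mem_Fx g c y).mp hy⟩

/-- the number of independent `d`-tuples in `V` -/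
noncomputable def tc (V : Submodule K L) (d : ℕ) : ℕ :=
  {v : Fin d → L | LinearIndependent K v ∧ ∀ i, v i ∈ V}.ncard

theorem tc_eq (V : Submodule K L) (d : ℕ) :
    (tc V d : ℤ) = ∏ i ∈ Finset.range d,
      ((Nat.card K : ℤ) ^ (finrank K V) - (Nat.card K : ℤ) ^ i) := by
  classical
  have hfd := fd (K := K) (L := L)
  have : Fintype K := Fintype.ofFinite K
  rcases Nat.lt_or_ge (finrank K V) d with h | h
  · rw [Finset.prod_eq_zero (Finset.mem_range.mpr h) (by simp)]
    have : {v : Fin d → L | LinearIndependent K v ∧ ∀ i, v i ∈ V} = ∅ := by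
      rw [Set.eq_empty_iff_forall_notMem]
      rintro v ⟨hv, hV⟩
      have h1 := finrank_span_eq_card hv
      have h2 : Submodule.span K (Set.range v) ≤ V := by
        rw [Submodule.span_le]
        rintro _ ⟨i, rfl⟩
        exact hV i
      have h3 := Submodule.finrank_mono h2
      rw [h1, Fintype.card_fin] at h3
      omega
    rw [tc, this]; simp
  · have h1 := card_linearIndependent (K := K) (V := V) h
    have h2 : tc V d = Nat.card {s : Fin d → V // LinearIndependent K s} := by
      rw [tc]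
      have : {v : Fin d → L | LinearIndependent K v ∧ ∀ i, v i ∈ V}
          = (fun (s : {s : Fin d → V // LinearIndependent K s}) => fun i => ((s.1 i : V) : L)) ''
            Set.univ := by
        ext v
        constructor
        · rintro ⟨hv, hV⟩
          refine ⟨⟨fun i => ⟨v i, hV i⟩, ?_⟩, Set.mem_univ _, rfl⟩
          rw [← LinearMap.linearIndependent_iff V.subtype V.ker_subtype]
          exact hv
        · rintro ⟨⟨s, hs⟩, _, rfl⟩
          refine ⟨?_, fun i => (s i).2⟩
          exact (LinearMap.linearIndependent_iff V.subtype V.ker_subtype).mpr hs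
      rw [this, Set.ncard_image_of_injective, Set.ncard_univ]
      rintro ⟨s, hs⟩ ⟨t, ht⟩ hst
      apply Subtype.ext
      funext i
      apply Subtype.ext
      exact congrFun hst i
    rw [h2, h1, Finset.prod_range (fun i => ((Nat.card K : ℤ) ^ (finrank K V) - (Nat.card K : ℤ) ^ i))]
    push_cast
    refine Finset.prod_congr rfl fun i _ => ?_
    rw [Nat.cast_sub]
    · push_cast
      rw [Nat.card_eq_fintype_card]
    · exact Nat.pow_le_pow_right Fintype.card_pos (by have := i.2; omega)

theorem tc_sum (V : Submodule K L) (d : ℕ) [Fintype (Submodule K L)]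
    [∀ U : Submodule K L, Decidable (finrank K U = d ∧ U ≤ V)] :
    tc V d = ∑ U : Submodule K L, if (finrank K U = d ∧ U ≤ V) then tc U d else 0 := by
  classical
  have hfd := fd (K := K) (L := L)
  have : Fintype L := Fintype.ofFinite L
  have h1 : tc V d = (Finset.univ.filter
      (fun v : Fin d → L => LinearIndependent K v ∧ ∀ i, v i ∈ V)).card := by
    rw [tc, ← Set.ncard_coe_finset]
    congr 1
    ext v; simp
  rw [h1, Finset.card_eq_sum_card_fiberwise
    (f := fun v : Fin d → L => Submodule.span K (Set.range v)) (t := Finset.univ)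
    (by intro v _; simp)]
  refine Finset.sum_congr rfl fun U _ => ?_
  split_ifs with hU
  · obtain ⟨hU1, hU2⟩ := hU
    rw [tc, ← Set.ncard_coe_finset]
    congr 1
    ext v
    simp only [Finset.coe_filter, Finset.mem_filter, Finset.mem_univ, true_and,
      Set.mem_ofPred_eq]
    constructor
    · rintro ⟨⟨hv, _⟩, hs⟩
      refine ⟨hv, fun i => ?_⟩
      rw [← hs]
      exact Submodule.subset_span ⟨i, rfl⟩
    · rintro ⟨hv, hi⟩
      refine ⟨⟨hv, fun i => hU2 (hi i)⟩, ?_⟩
      apply Submodule.eq_of_le_of_finrank_eq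
      · rw [Submodule.span_le]
        rintro _ ⟨i, rfl⟩
        exact hi i
      · rw [finrank_span_eq_card hv, Fintype.card_fin, hU1]
  · rw [Finset.card_eq_zero, Finset.filter_eq_empty_iff]
    intro v hv hs
    rw [Finset.mem_filter] at hv
    apply hU
    constructor
    · rw [← hs, finrank_span_eq_card hv.2.1, Fintype.card_fin]
    · rw [← hs, Submodule.span_le]
      rintro _ ⟨i, rfl⟩
      exact hv.2.2 i

/-- the number of `c` fixing `U` -/
theorem dvd_fix (g : L →ₗ[K] L) (U : Submodule K L) {k d : ℕ}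
    (hk : finrank K (LinearMap.range g) ≤ k) (hU : finrank K U = d) :
    Nat.card K ^ (finrank K L - k * d) ∣ {c : L | U ≤ Fx g c}.ncard := by
  have hfd := fd (K := K) (L := L)
  let b := Module.finBasisOfFinrankEq K U hU
  let P : L →ₗ[K] (Fin d → LinearMap.range g) :=
    LinearMap.pi fun i => g.rangeRestrict ∘ₗ LinearMap.mulRight K (b i : L)
  have hP : ∀ c i, (P c i : L) = g (c * b i) := fun c i => rfl
  have h1 := LinearMap.finrank_range_add_finrank_ker P
  have h2 : finrank K (Fin d → LinearMap.range g) = d * finrank K (LinearMap.range g) := by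
    rw [Module.finrank_pi_fintype]
    simp
  have h3 : finrank K (LinearMap.range P) ≤ d * finrank K (LinearMap.range g) := by
    rw [← h2]; exact Submodule.finrank_le _
  have h4 : d * finrank K (LinearMap.range g) ≤ k * d := by
    rw [mul_comm]; exact Nat.mul_le_mul_right d hk
  have h5 : ∀ c, U ≤ Fx g c ↔ ∀ i, (P c i : L) = b i := by
    intro c
    constructor
    · intro h i
      rw [hP, ← mem_Fx]
      exact h (b i).2
    · intro h y hy
      have hy' := b.sum_repr ⟨y, hy⟩
      have hy'' := congrArg Subtype.val hy'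
      simp only [AddSubmonoidClass.coe_finsetSum, SetLike.val_smul] at hy''
      rw [← hy'']
      apply Submodule.sum_mem
      intro i _
      apply Submodule.smul_mem
      rw [mem_Fx, ← hP]
      exact h i
  rcases Set.eq_empty_or_nonempty {c : L | U ≤ Fx g c} with h | ⟨c0, hc0⟩
  · rw [h, Set.ncard_empty]; exact dvd_zero _
  · have h6 : {c : L | U ≤ Fx g c} = (fun x => x + c0) '' (LinearMap.ker P : Set L) := by
      have hc0' : ∀ i, (P c0 i : L) = b i := (h5 c0).mp hc0
      ext c
      constructor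
      · intro hc
        have hc' : ∀ i, (P c i : L) = b i := (h5 c).mp hc
        refine ⟨c - c0, ?_, by simp⟩
        rw [SetLike.mem_coe, LinearMap.mem_ker, map_sub, sub_eq_zero]
        funext i
        apply Subtype.ext
        rw [hc', hc0']
      · rintro ⟨x, hx, rfl⟩
        rw [SetLike.mem_coe, LinearMap.mem_ker] at hx
        show U ≤ Fx g (x + c0)
        rw [h5]
        intro i
        rw [map_add, hx, zero_add]
        exact hc0' i
    rw [h6, Set.ncard_image_of_injective _ (add_left_injective c0), ← Nat.card_coe_set_eq]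
    have h7 := card_sub (K := K) (LinearMap.ker P)
    have h8 : Nat.card ((LinearMap.ker P : Set L)) = Nat.card (LinearMap.ker P) := rfl
    rw [h8, h7]
    apply pow_dvd_pow
    omega

theorem dvd_prod (q : ℤ) (d : ℕ) :
    q ^ (d * (d - 1) / 2) ∣ ∏ i ∈ Finset.range d, (q ^ d - q ^ i) := by
  rw [← Finset.sum_range_id_mul_two, Nat.mul_div_cancel _ (by norm_num : 0 < 2),
    ← Finset.prod_pow_eq_pow_sum]
  apply Finset.prod_dvd_prod_of_dvd
  intro i hi
  apply dvd_sub
  · exact pow_dvd_pow _ (Finset.mem_range.mp hi).le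
  · exact dvd_rfl

theorem dvd_M (g : L →ₗ[K] L) [Fintype L] {k : ℕ} (d : ℕ)
    (hk : finrank K (LinearMap.range g) ≤ k) :
    (Nat.card K : ℤ) ^ (d * (d - 1) / 2 + (finrank K L - k * d)) ∣
      ∑ c : L, (tc (Fx g c) d : ℤ) := by
  classical
  have : Finite (Submodule K L) := Finite.of_injective (fun U => (U : Set L)) SetLike.coe_injective
  have := Fintype.ofFinite (Submodule K L)
  have h1 : ∑ c : L, (tc (Fx g c) d : ℤ) = ∑ U : Submodule K L, ∑ c : L,
      if (finrank K U = d ∧ U ≤ Fx g c) then (tc U d : ℤ) else 0 := by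
    rw [Finset.sum_comm]
    refine Finset.sum_congr rfl fun c _ => ?_
    rw [tc_sum (Fx g c) d]
    push_cast
    rfl
  rw [h1]
  apply Finset.dvd_sum
  intro U _
  by_cases hU : finrank K U = d
  · have h2 : (∑ c : L, if (finrank K U = d ∧ U ≤ Fx g c) then (tc U d : ℤ) else 0)
        = (tc U d : ℤ) * ({c : L | U ≤ Fx g c}.ncard : ℤ) := by
      rw [← Finset.sum_filter, Finset.sum_const, nsmul_eq_mul, mul_comm]
      congr 2
      rw [← Set.ncard_coe_finset]
      congr 1
      ext c
      simp [hU]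
    rw [h2, pow_add]
    apply mul_dvd_mul
    · rw [tc_eq, hU]
      exact dvd_prod _ d
    · have := dvd_fix g U hk hU
      exact_mod_cast this
  · have h2 : (∑ c : L, if (finrank K U = d ∧ U ≤ Fx g c) then (tc U d : ℤ) else 0) = 0 := by
      apply Finset.sum_eq_zero
      intro c _
      rw [if_neg]
      exact fun h => hU h.1
    rw [h2]; exact dvd_zero _

theorem dvd_sig_sharp (g : L →ₗ[K] L) {k e : ℕ}
    (hk : finrank K (LinearMap.range g) ≤ k)
    (he : ∀ d, 1 ≤ d → d ≤ k → e ≤ d * (d - 1) / 2 + (finrank K L - k * d)) :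
    Nat.card K ^ e ∣ (Sig g).ncard := by
  classical
  have hfd := fd (K := K) (L := L)
  have : Fintype L := Fintype.ofFinite L
  set q : ℤ := (Nat.card K : ℤ) with hq
  set P : ℤ := ∏ i ∈ Finset.Ico 0 k, (q ^ (i + 1) - 1) with hP
  -- the sum of the identities
  have h1 : ∑ c : L, ∏ i ∈ Finset.range k, (q ^ (i + 1) - q ^ (finrank K (Fx g c)))
      = ∑ d ∈ Finset.range (k + 1), ((∏ i ∈ Finset.Ico d k, (q ^ (i + 1) - 1)) * (-1) ^ d) *
        ∑ c : L, (tc (Fx g c) d : ℤ) := by
    rw [Finset.sum_congr rfl (fun c _ => ident q (q ^ (finrank K (Fx g c))) k), Finset.sum_comm]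
    refine Finset.sum_congr rfl fun d _ => ?_
    rw [Finset.mul_sum]
    refine Finset.sum_congr rfl fun c _ => ?_
    rw [tc_eq]
  have h2 : ∀ c : L, ∏ i ∈ Finset.range k, (q ^ (i + 1) - q ^ (finrank K (Fx g c)))
      = if c ∈ Sig g then 0 else P := by
    intro c
    split_ifs with hc
    · rw [mem_Sig'] at hc
      have h3 : finrank K (Fx g c) ≤ k := (Submodule.finrank_mono (Fx_le g c)).trans hk
      apply Finset.prod_eq_zero (i := finrank K (Fx g c) - 1)
      · rw [Finset.mem_range]; omega
      · rw [Nat.sub_add_cancel (by omega), sub_self]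
    · rw [mem_Sig', not_not] at hc
      rw [hc, pow_zero, hP, Finset.range_eq_Ico]
  have h3 : ∑ c : L, ∏ i ∈ Finset.range k, (q ^ (i + 1) - q ^ (finrank K (Fx g c)))
      = (Fintype.card L : ℤ) * P - ((Sig g).ncard : ℤ) * P := by
    rw [Finset.sum_congr rfl (fun c _ => h2 c)]
    have h4 : ∀ c : L, (if c ∈ Sig g then (0 : ℤ) else P) = P - if c ∈ Sig g then P else 0 := by
      intro c; split_ifs <;> simp
    rw [Finset.sum_congr rfl (fun c _ => h4 c), Finset.sum_sub_distrib, Finset.sum_const,
      Finset.card_univ, nsmul_eq_mul, ← Finset.sum_filter, Finset.sum_const, nsmul_eq_mul]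
    congr 3
    rw [← Set.ncard_coe_finset]
    congr 1
    ext c; simp
  have h5 : (∑ c : L, (tc (Fx g c) 0 : ℤ)) = Fintype.card L := by
    rw [Finset.sum_congr rfl (fun c _ => tc_eq (Fx g c) 0)]
    simp
  rw [h3, Finset.sum_range_succ', h5, pow_zero, mul_one] at h1
  have h6 : q ^ e ∣ ∑ d ∈ Finset.range k, ((∏ i ∈ Finset.Ico (d + 1) k, (q ^ (i + 1) - 1)) *
      (-1) ^ (d + 1)) * ∑ c : L, (tc (Fx g c) (d + 1) : ℤ) := by
    apply Finset.dvd_sum
    intro d hd
    apply Dvd.dvd.mul_left
    refine dvd_trans (pow_dvd_pow _ ?_) (dvd_M g (d + 1) hk)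
    exact he (d + 1) (by omega) (by have := Finset.mem_range.mp hd; omega)
  have h7 : q ^ e ∣ P * ((Sig g).ncard : ℤ) := by
    have : P * ((Sig g).ncard : ℤ) = - ∑ d ∈ Finset.range k,
        ((∏ i ∈ Finset.Ico (d + 1) k, (q ^ (i + 1) - 1)) *
        (-1) ^ (d + 1)) * ∑ c : L, (tc (Fx g c) (d + 1) : ℤ) := by
      linear_combination (-1 : ℤ) * h1
    rw [this]
    exact (dvd_neg).mpr h6
  have h8 : IsCoprime (q ^ e) P := by
    rw [hP]
    apply IsCoprime.prod_right
    intro i _
    apply IsCoprime.pow_left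
    refine ⟨q ^ i, -1, ?_⟩
    ring
  have h9 := h8.dvd_of_dvd_mul_left h7
  rw [hq] at h9
  exact_mod_cast h9

/-- the sharp congruence -/
theorem congr_sharp {k e : ℕ} (hk : k < finrank K L)
    (he : ∀ d, 1 ≤ d → d ≤ k → e ≤ d * (d - 1) / 2 + (finrank K L - k * d))
    (a : Fin (finrank K L) → L) (m : L)
    (hm : Nat.card K ^ (finrank K L - k) ≤ {x : L | qpoly (Nat.card K) a x = m * x}.ncard) :
    (Im (qpoly (Nat.card K) a)).ncard ≡ 1 [MOD Nat.card K ^ e] := by
  have hfd := fd (K := K) (L := L)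
  obtain ⟨g, hg⟩ := exists_lin (K := K) a
  have h1 : qpoly (Nat.card K) a = g := (funext hg).symm
  rw [h1] at hm ⊢
  rw [← ncard_shift g m]
  have h2 : {x : L | g x = m * x}.ncard = Nat.card K ^ finrank K (E g m) := by
    rw [← card_sub, ← Nat.card_coe_set_eq]
    congr 1
    have : ({x : L | g x = m * x}) = ((E g m : Submodule K L) : Set L) := by
      ext x; rw [SetLike.mem_coe, mem_E]; rfl
    rw [this]; rfl
  rw [h2, Nat.pow_le_pow_iff_right Finite.one_lt_card] at hm
  set g' := g - LinearMap.mulLeft K m with hg'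
  have h3 : E g m = LinearMap.ker g' := rfl
  rw [h3] at hm
  have h0 : (0 : L) ∈ Im g' := by
    have : Nontrivial (LinearMap.ker g') := by
      apply Module.nontrivial_of_finrank_pos (R := K); omega
    obtain ⟨x, hx⟩ := exists_ne (0 : LinearMap.ker g')
    rw [mem_Im]
    refine ⟨x, fun h => hx (Subtype.ext h), ?_⟩
    rw [zero_mul]; exact x.2
  rw [ncard_sig g' h0]
  have h4 := LinearMap.finrank_range_add_finrank_ker g'
  have h7 : Nat.card K ^ e ∣ (Sig g').ncard := dvd_sig_sharp g' (by omega) he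
  have h8 := (Nat.modEq_zero_iff_dvd.mpr h7).add_right 1
  simpa using h8

end Pool.Agent.H88.QP
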