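import Mathlib
import Pool.Agent.H88.QP.Moebius

/-!
# q-polynomials with a large eigenspace: the generic example
-/

set_option autoImplicit false
set_option linter.unusedSectionVars false

namespace Pool.Agent.H88.QP

open Module Finset

variable {K L : Type*} [Field K] [Field L] [Algebra K L] [Finite L] [Finite K]

/-- the map `∑ θ^i tr (θ^(k i) x)` -/
noncomputable def Gk (K : Type*) {L : Type*} [Field K] [Field L] [Algebra K L] (θ : L) (k : ℕ) :
    L →ₗ[K] L :=
  ∑ i : Fin k, LinearMap.mulLeft K (θ ^ (i : ℕ)) ∘ₗ G0 K L ∘ₗ LinearMap.mulLeft K (θ ^ (k * i))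

theorem Gk_apply (θ : L) (k : ℕ) (x : L) :
    Gk K θ k x = ∑ i : Fin k, θ ^ (i : ℕ) *
      algebraMap K L (Algebra.trace K L (θ ^ (k * (i : ℕ)) * x)) := by
  rw [Gk, LinearMap.sum_apply]
  rfl

theorem qpoly_Gk (θ : L) (k : ℕ) (x : L) :
    qpoly (Nat.card K) (fun s : Fin (finrank K L) =>
      ∑ i : Fin k, θ ^ (i : ℕ) * (θ ^ (k * (i : ℕ))) ^ (Nat.card K ^ (s : ℕ))) x
      = Gk K θ k x := by
  rw [Gk_apply, qpoly]
  have h1 : ∀ s : Fin (finrank K L), (∑ i : Fin k, θ ^ (i : ℕ) *
      (θ ^ (k * (i : ℕ))) ^ (Nat.card K ^ (s : ℕ))) * x ^ (Nat.card K ^ (s : ℕ))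
      = ∑ i : Fin k, θ ^ (i : ℕ) * ((θ ^ (k * (i : ℕ))) * x) ^ (Nat.card K ^ (s : ℕ)) := by
    intro s
    rw [Finset.sum_mul]
    refine Finset.sum_congr rfl fun i _ => ?_
    rw [mul_pow]; ring
  rw [Finset.sum_congr rfl (fun s _ => h1 s), Finset.sum_comm]
  refine Finset.sum_congr rfl fun i _ => ?_
  rw [FiniteField.algebraMap_trace_eq_sum_pow, Finset.sum_range, Finset.mul_sum]

/-- the matrix of `v ↦ G(c v)` -/
noncomputable def Mt (K : Type*) {L : Type*} [Field K] [Field L] [Algebra K L] (θ : L) (k : ℕ) :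
    L →ₗ[K] Matrix (Fin k) (Fin k) K where
  toFun c := Matrix.of fun i j => Algebra.trace K L (θ ^ (k * (i : ℕ) + j) * c)
  map_add' := by intro a b; ext i j; simp [mul_add]
  map_smul' := by intro a b; ext i j; simp

/-- linear combinations of the first `k` powers of `θ` -/
noncomputable def yv {k : ℕ} (θ : L) (v : Fin k → K) : L :=
  ∑ j : Fin k, algebraMap K L (v j) * θ ^ (j : ℕ)

theorem Gk_yv (θ c : L) {k : ℕ} (v : Fin k → K) :
    Gk K θ k (c * yv θ v) = yv θ ((Mt K θ k c).mulVec v) := by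
  rw [Gk_apply]
  conv_rhs => rw [yv]
  refine Finset.sum_congr rfl fun i _ => ?_
  rw [mul_comm]
  congr 2
  have h1 : θ ^ (k * (i : ℕ)) * (c * yv θ v) = ∑ j : Fin k, v j • (θ ^ (k * (i : ℕ) + j) * c) := by
    rw [yv, Finset.mul_sum, Finset.mul_sum]
    refine Finset.sum_congr rfl fun j _ => ?_
    rw [Algebra.smul_def, pow_add]; ring
  rw [h1, map_sum, Matrix.mulVec, dotProduct]
  refine Finset.sum_congr rfl fun j _ => ?_
  rw [map_smul, smul_eq_mul, mul_comm]
  rfl

theorem yv_zero_iff {k : ℕ} {θ : L} (hθ : LinearIndependent K (fun j : Fin k => θ ^ (j : ℕ)))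
    (v : Fin k → K) : yv θ v = 0 ↔ v = 0 := by
  constructor
  · intro h
    funext j
    apply Fintype.linearIndependent_iff.mp hθ v
    rw [yv] at h
    rw [← h]
    refine Finset.sum_congr rfl fun j _ => ?_
    rw [Algebra.smul_def]
  · rintro rfl
    simp [yv]

theorem yv_sub {k : ℕ} (θ : L) (v w : Fin k → K) : yv θ (v - w) = yv θ v - yv θ w := by
  simp [yv, sub_mul, Finset.sum_sub_distrib]

theorem range_Gk {k : ℕ} (θ x : L) : ∃ v : Fin k → K, Gk K θ k x = yv θ v := by
  refine ⟨fun i => Algebra.trace K L (θ ^ (k * (i : ℕ)) * x), ?_⟩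
  rw [Gk_apply, yv]
  refine Finset.sum_congr rfl fun i _ => ?_
  rw [mul_comm]

theorem mem_Sig_Gk {k : ℕ} {θ : L} (hθ : LinearIndependent K (fun j : Fin k => θ ^ (j : ℕ)))
    (c : L) : c ∈ Sig (Gk K θ k) ↔ ¬ IsUnit (Mt K θ k c - 1) := by
  rw [Matrix.isUnit_iff_isUnit_det, isUnit_iff_ne_zero, not_not,
    ← Matrix.exists_mulVec_eq_zero_iff, mem_Sig]
  constructor
  · rintro ⟨y, ⟨x, hx⟩, hy0, h⟩
    obtain ⟨v, hv⟩ := range_Gk (K := K) (k := k) θ x
    rw [hx] at hv
    subst hv
    refine ⟨v, ?_, ?_⟩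
    · rintro rfl
      exact hy0 ((yv_zero_iff hθ 0).mpr rfl)
    · rw [Gk_yv, ← sub_eq_zero, ← yv_sub, yv_zero_iff hθ] at h
      rw [Matrix.sub_mulVec, Matrix.one_mulVec]
      exact h
  · rintro ⟨v, hv0, hv⟩
    rw [Matrix.sub_mulVec, Matrix.one_mulVec, sub_eq_zero] at hv
    have h1 : Gk K θ k (c * yv θ v) = yv θ v := by rw [Gk_yv, hv]
    exact ⟨yv θ v, ⟨_, h1⟩, fun h => hv0 ((yv_zero_iff hθ v).mp h), h1⟩

theorem ker_Mt {k : ℕ} {θ : L} (hθ : LinearIndependent K (fun l : Fin (k * k) => θ ^ (l : ℕ))) :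
    finrank K (LinearMap.ker (Mt K θ k)) + k * k = finrank K L := by
  have h1 := finrank_orth (Submodule.span K (Set.range (fun l : Fin (k * k) => θ ^ (l : ℕ))))
    (LinearMap.ker (Mt K θ k)) (by
    intro x
    rw [LinearMap.mem_ker]
    constructor
    · intro hx s hs
      induction hs using Submodule.span_induction with
      | mem s hs' =>
        obtain ⟨l, rfl⟩ := hs'
        have hl := l.2
        have hk : 0 < k := by
          rcases Nat.eq_zero_or_pos k with h | h
          · subst h; simp at hl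
          · exact h
        have h2 := congrFun (congrFun hx ⟨(l : ℕ) / k, Nat.div_lt_of_lt_mul hl⟩)
          ⟨(l : ℕ) % k, Nat.mod_lt _ hk⟩
        have h3 : Algebra.trace K L (θ ^ (k * ((l : ℕ) / k) + (l : ℕ) % k) * x) = 0 := h2
        rw [Nat.div_add_mod] at h3
        exact h3
      | zero => simp
      | add a b _ _ ha hb => rw [add_mul, map_add, ha, hb, add_zero]
      | smul r a _ ha => rw [smul_mul_assoc, map_smul, ha, smul_zero]
    · intro h
      ext i j
      have h2 : k * (i : ℕ) + j < k * k := by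
        have hi := i.2
        have hj := j.2
        nlinarith
      exact h _ (Submodule.subset_span ⟨⟨k * (i : ℕ) + j, h2⟩, rfl⟩))
  rw [finrank_span_eq_card hθ, Fintype.card_fin] at h1
  exact h1

theorem fib_Mt {k : ℕ} {θ : L} (hθ : LinearIndependent K (fun l : Fin (k * k) => θ ^ (l : ℕ)))
    (A : Matrix (Fin k) (Fin k) K) :
    {c : L | Mt K θ k c = A}.ncard = Nat.card K ^ (finrank K L - k * k) := by
  have hfd := fd (K := K) (L := L)
  have h1 := ker_Mt (K := K) hθ
  have h2 := LinearMap.finrank_range_add_finrank_ker (Mt K θ k)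
  have h3 : LinearMap.range (Mt K θ k) = ⊤ := by
    apply Submodule.eq_top_of_finrank_eq
    rw [Module.finrank_matrix]
    simp
    omega
  obtain ⟨c0, hc0⟩ := LinearMap.range_eq_top.mp h3 A
  have h4 : {c : L | Mt K θ k c = A}
      = (fun x => x + c0) '' (LinearMap.ker (Mt K θ k) : Set L) := by
    ext c
    constructor
    · intro hc
      have hc' : Mt K θ k c = A := hc
      refine ⟨c - c0, ?_, by simp⟩
      rw [SetLike.mem_coe, LinearMap.mem_ker, map_sub, hc', hc0, sub_self]
    · rintro ⟨x, hx, rfl⟩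
      rw [SetLike.mem_coe, LinearMap.mem_ker] at hx
      show Mt K θ k (x + c0) = A
      rw [map_add, hx, zero_add, hc0]
  rw [h4, Set.ncard_image_of_injective _ (add_left_injective c0), ← Nat.card_coe_set_eq]
  have h7 := card_sub (K := K) (LinearMap.ker (Mt K θ k))
  have h8 : Nat.card ((LinearMap.ker (Mt K θ k) : Set L)) = Nat.card (LinearMap.ker (Mt K θ k)) :=
    rfl
  rw [h8, h7]
  congr 1
  omega

theorem card_unit (k : ℕ) : {A : Matrix (Fin k) (Fin k) K | IsUnit (A - 1)}.ncard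
    = ∏ i ∈ Finset.range k, (Nat.card K ^ k - Nat.card K ^ i) := by
  have : Fintype K := Fintype.ofFinite K
  have h1 : {A : Matrix (Fin k) (Fin k) K | IsUnit (A - 1)}
      = (fun u : GL (Fin k) K => (u : Matrix (Fin k) (Fin k) K) + 1) '' Set.univ := by
    ext A
    constructor
    · rintro ⟨u, hu⟩
      exact ⟨u, Set.mem_univ _, by show (u : Matrix (Fin k) (Fin k) K) + 1 = A; rw [hu]; simp⟩
    · rintro ⟨u, _, rfl⟩
      exact ⟨u, by simp⟩
  rw [h1, Set.ncard_image_of_injective, Set.ncard_univ, Matrix.card_GL_field,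
    Finset.prod_range (fun i => (Nat.card K ^ k - Nat.card K ^ i)), Nat.card_eq_fintype_card]
  intro u w huw
  apply Units.ext
  exact add_right_cancel huw

theorem ker_Gk (θ : L) (k : ℕ) :
    finrank K L - k ≤ finrank K (LinearMap.ker (Gk K θ k)) := by
  have hfd := fd (K := K) (L := L)
  have h1 : LinearMap.range (Gk K θ k)
      ≤ Submodule.span K (Set.range (fun j : Fin k => θ ^ (j : ℕ))) := by
    rintro _ ⟨x, rfl⟩
    obtain ⟨v, hv⟩ := range_Gk (K := K) (k := k) θ x
    rw [hv, yv]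
    apply Submodule.sum_mem
    intro j _
    rw [← Algebra.smul_def]
    exact Submodule.smul_mem _ _ (Submodule.subset_span ⟨j, rfl⟩)
  have h2 := Submodule.finrank_mono h1
  have h3 := finrank_range_le_card (R := K) (fun j : Fin k => θ ^ (j : ℕ))
  rw [Fintype.card_fin, Set.finrank] at h3
  have h4 := LinearMap.finrank_range_add_finrank_ker (Gk K θ k)
  omega

theorem size_Gk {k : ℕ} {θ : L} (hk' : k < finrank K L)
    (hθ : LinearIndependent K (fun l : Fin (k * k) => θ ^ (l : ℕ))) :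
    (Im (Gk K θ k)).ncard + Nat.card K ^ (finrank K L - k * k) *
      ∏ i ∈ Finset.range k, (Nat.card K ^ k - Nat.card K ^ i) = Nat.card K ^ finrank K L + 1 := by
  classical
  have hfd := fd (K := K) (L := L)
  have : Fintype L := Fintype.ofFinite L
  have : Fintype (Matrix (Fin k) (Fin k) K) := Fintype.ofFinite _
  have hkk : k ≤ k * k := Nat.le_mul_self k
  have hθk : LinearIndependent K (fun j : Fin k => θ ^ (j : ℕ)) :=
    hθ.comp (Fin.castLE hkk) (Fin.castLE_injective _)
  have h0 : (0 : L) ∈ Im (Gk K θ k) := by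
    have h4 := ker_Gk (K := K) θ k
    have : Nontrivial (LinearMap.ker (Gk K θ k)) := by
      apply Module.nontrivial_of_finrank_pos (R := K); omega
    obtain ⟨x, hx⟩ := exists_ne (0 : LinearMap.ker (Gk K θ k))
    rw [mem_Im]
    refine ⟨x, fun h => hx (Subtype.ext h), ?_⟩
    rw [zero_mul]; exact x.2
  rw [ncard_sig _ h0]
  have h1 : (Sig (Gk K θ k)).ncard + {c : L | IsUnit (Mt K θ k c - 1)}.ncard
      = Nat.card K ^ finrank K L := by
    have e : Sig (Gk K θ k) = {c : L | IsUnit (Mt K θ k c - 1)}ᶜ := by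
      ext c
      rw [mem_Sig_Gk hθk]
      rfl
    rw [e, add_comm, Set.ncard_add_ncard_compl, Module.natCard_eq_pow_finrank (K := K)]
  have h2 : {c : L | IsUnit (Mt K θ k c - 1)}.ncard
      = {A : Matrix (Fin k) (Fin k) K | IsUnit (A - 1)}.ncard *
        Nat.card K ^ (finrank K L - k * k) := by
    have e1 : {c : L | IsUnit (Mt K θ k c - 1)}.ncard
        = (Finset.univ.filter (fun c : L => IsUnit (Mt K θ k c - 1))).card := by
      rw [← Set.ncard_coe_finset]
      congr 1
      ext c; simp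
    have e2 : {A : Matrix (Fin k) (Fin k) K | IsUnit (A - 1)}.ncard
        = (Finset.univ.filter (fun A : Matrix (Fin k) (Fin k) K => IsUnit (A - 1))).card := by
      rw [← Set.ncard_coe_finset]
      congr 1
      ext c; simp
    rw [e1, e2, Finset.card_eq_sum_card_fiberwise (f := fun c => Mt K θ k c)
      (t := Finset.univ.filter (fun A : Matrix (Fin k) (Fin k) K => IsUnit (A - 1)))]
    · rw [Finset.sum_congr rfl (g := fun _ => Nat.card K ^ (finrank K L - k * k)),
        Finset.sum_const, smul_eq_mul]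
      intro A hA
      rw [← fib_Mt hθ A, ← Set.ncard_coe_finset]
      congr 1
      ext c
      simp only [Finset.coe_filter, Finset.mem_filter, Finset.mem_univ, true_and,
        Set.mem_ofPred_eq]
      constructor
      · exact fun h => h.2
      · intro h
        exact ⟨by rw [h]; exact (Finset.mem_filter.mp hA).2, h⟩
    · intro c hc
      simp only [Finset.coe_filter, Finset.mem_univ, true_and, Set.mem_ofPred_eq] at hc ⊢
      exact hc
  rw [card_unit] at h2
  rw [h2] at h1
  rw [mul_comm (Nat.card K ^ (finrank K L - k * k))]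
  omega

/-- for `k ^ 2 ≤ n` the exponent of the congruence is attained -/
theorem exists_generic {k : ℕ} (hk' : k < finrank K L) (hk : k ^ 2 ≤ finrank K L) :
    ∃ a : Fin (finrank K L) → L,
      Nat.card K ^ (finrank K L - k) ≤ {x : L | qpoly (Nat.card K) a x = 0}.ncard ∧
      (Im (qpoly (Nat.card K) a)).ncard + Nat.card K ^ (finrank K L - k ^ 2) *
        ∏ i ∈ Finset.range k, (Nat.card K ^ k - Nat.card K ^ i) = Nat.card K ^ finrank K L + 1 := by
  have hfd := fd (K := K) (L := L)
  obtain ⟨θ, hθ⟩ := Field.exists_primitive_element K L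
  have h1 : (minpoly K θ).natDegree = finrank K L :=
    (Field.primitive_element_iff_minpoly_natDegree_eq K θ).mp hθ
  have h2 := linearIndependent_pow (K := K) θ
  rw [sq] at hk ⊢
  have h3 : LinearIndependent K (fun l : Fin (k * k) => θ ^ (l : ℕ)) :=
    h2.comp (Fin.castLE (by omega)) (Fin.castLE_injective _)
  refine ⟨fun s : Fin (finrank K L) =>
      ∑ i : Fin k, θ ^ (i : ℕ) * (θ ^ (k * (i : ℕ))) ^ (Nat.card K ^ (s : ℕ)), ?_, ?_⟩
  · have e : {x : L | qpoly (Nat.card K) (fun s : Fin (finrank K L) =>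
        ∑ i : Fin k, θ ^ (i : ℕ) * (θ ^ (k * (i : ℕ))) ^ (Nat.card K ^ (s : ℕ))) x = 0}
        = {x : L | Gk K θ k x = 0} := by
      ext x
      show _ = _ ↔ _ = _
      rw [qpoly_Gk]
    rw [e, card_ker]
    exact Nat.pow_le_pow_right Nat.card_pos (ker_Gk θ k)
  · have e : qpoly (Nat.card K) (fun s : Fin (finrank K L) =>
        ∑ i : Fin k, θ ^ (i : ℕ) * (θ ^ (k * (i : ℕ))) ^ (Nat.card K ^ (s : ℕ)))
        = Gk K θ k := by
      funext x
      exact qpoly_Gk θ k x
    rw [e]
    exact size_Gk hk' h3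

end Pool.Agent.H88.QP
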